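import Pool.Agent.R553.SW.Red

/-!
# The reduction runs in polynomial time
-/

namespace Pool.Agent.R553.SW

open Pool.Agent.H692R2 Pool.Agent.NPC Pool.Agent.NPC.R542

theorem length_filter_range (P : ℕ → Bool) (n : ℕ) :
    ((List.range n).filter P).length = ∑ j ∈ Finset.range n, if P j then 1 else 0 := by
  induction n with
  | zero => simp
  | succ n ih =>
    rw [List.range_succ, List.filter_append, List.length_append, ih, Finset.sum_range_succ]
    congr 1
    cases h : P n <;> simp [h]

theorem CC_length (p q : ℕ) (pr : ℕ → ℕ → Bool) : CC p q pr =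
    p * (q - 1) + ((List.range p).flatMap fun r => (List.range (q - 1)).filter (pr r)).length +
      2 * (q * (p - 1)) := by
  unfold CC
  congr 1
  rw [List.length_flatMap, sum_map_range]
  simp only [length_filter_range]
  rw [show p * (q - 1) = ∑ r ∈ Finset.range p, ∑ j ∈ Finset.range (q - 1), 1 by simp,
    ← Finset.sum_add_distrib]
  refine Finset.sum_congr rfl fun r _ => ?_
  rw [← Finset.sum_add_distrib]
  refine Finset.sum_congr rfl fun j _ => ?_
  cases pr r j <;> rfl

theorem boxes_seg (p q : ℕ) (pr : ℕ → ℕ → Bool) : (boxes p q pr).map seg =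
    (List.range p).map (fun r => (((2, 4 * r + 4), (4 * q + 2, 4 * r + 4)) : Seg)) ++
    ((List.range q).map (fun j => (((4 * j + 4, 2), (4 * j + 4, 4 * p + 2)) : Seg)) ++
    ((List.range p).flatMap (fun r => ((List.range (q - 1)).filter (fun j => pr r j)).map
      (fun j => (((4 * j + 6, 4 * r + 2), (4 * j + 6, 4 * r + 6)) : Seg))) ++
    ((List.range q).flatMap (fun j => (List.range (p - 1)).map
      (fun r => (((4 * j + 2, 4 * r + 6), (4 * j + 6, 4 * r + 6)) : Seg))) ++
    ((List.range (2 * p - 1)).map (fun y => (((2, 2 * y + 2), (2, 2 * y + 4)) : Seg)) ++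
    (List.range (2 * q)).map (fun x => (((2 * x + 2, 2), (2 * x + 4, 2)) : Seg)))))) := by
  unfold boxes
  simp only [List.map_append, List.map_map, List.map_flatMap]
  rfl

section

variable {α : Type} [TEnc α]

theorem poly_priv {M : α → ℕ} {A : α → List (ℕ × ℕ)} (hM : Poly M) (hA : Poly A) :
    Poly (fun x : (α × ℕ) × ℕ => priv (M x.1.1) (tl (A x.1.1)) (hd (A x.1.1)) x.1.2 x.2) := by
  unfold priv tl hd
  fun_prop

theorem UPoly.predUp {n : α → ℕ} (hn : UPoly n) : UPoly (fun a => n a - 1) :=
  UPoly.of_le (NPC.Poly.sub hn.toPoly (NPC.Poly.const 1)) hn fun _ => Nat.sub_le _ _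

theorem poly_out {n k : α → ℕ} {A : α → List (ℕ × ℕ)} (hn : UPoly n) (hA : Poly A) (hk : Poly k) :
    Poly (fun a => out (n a) (A a) (k a)) := by
  have hm : UPoly (fun a => (A a).length) := UPoly.length hA
  have hM : UPoly (fun a => packSize (n a) (A a).length) :=
    UPoly.add (UPoly.mul (UPoly.mul (UPoly.const 2) hn) hm) (UPoly.const 1)
  have hp : UPoly (fun a => nrows (n a) (packSize (n a) (A a).length)) :=
    UPoly.add (UPoly.mul hn (UPoly.add hM (UPoly.const 1))) hM
  have hq : UPoly (fun a => 5 * (A a).length) := UPoly.mul (UPoly.const 5) hm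
  have hpr := poly_priv hM.toPoly hA
  have hpP := hp.toPoly
  have hqP := hq.toPoly
  have hnP := hn.toPoly
  have r1 : Poly (fun a => List.range (nrows (n a) (packSize (n a) (A a).length))) := hp.range
  have r2 : Poly (fun a => List.range (5 * (A a).length)) := hq.range
  have r3 : Poly (fun a => List.range (5 * (A a).length - 1)) := (UPoly.predUp hq).range
  have r4 : Poly (fun a => List.range (nrows (n a) (packSize (n a) (A a).length) - 1)) :=
    (UPoly.predUp hp).range
  have r5 : Poly (fun a => List.range (2 * nrows (n a) (packSize (n a) (A a).length) - 1)) :=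
    (UPoly.predUp (UPoly.mul (UPoly.const 2) hp)).range
  have r6 : Poly (fun a => List.range (2 * (5 * (A a).length))) :=
    (UPoly.mul (UPoly.const 2) hq).range
  unfold out
  simp only [boxes_seg, CC_length]
  set p := fun a => nrows (n a) (packSize (n a) (A a).length) with hpdef
  set M := fun a => packSize (n a) (A a).length with hMdef
  set q := fun a => 5 * (A a).length with hqdef
  have g1 : Poly (fun a => (List.range (p a)).map
      (fun r => (((2, 4 * r + 4), (4 * q a + 2, 4 * r + 4)) : Seg))) := by
    fun_prop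
  have g2 : Poly (fun a => (List.range (q a)).map
      (fun j => (((4 * j + 4, 2), (4 * j + 4, 4 * p a + 2)) : Seg))) := by
    fun_prop
  have g3 : Poly (fun a => (List.range (p a)).flatMap (fun r => ((List.range (q a - 1)).filter
      (fun j => priv (M a) (tl (A a)) (hd (A a)) r j)).map
      (fun j => (((4 * j + 6, 4 * r + 2), (4 * j + 6, 4 * r + 6)) : Seg)))) := by
    refine Poly.flatMap r1 (F := fun a r => ((List.range (q a - 1)).filter
      (fun j => priv (M a) (tl (A a)) (hd (A a)) r j)).map
      (fun j => (((4 * j + 6, 4 * r + 2), (4 * j + 6, 4 * r + 6)) : Seg))) ?_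
    refine NPC.Poly.map (l := fun x : α × ℕ => (List.range (q x.1 - 1)).filter
      (fun j => priv (M x.1) (tl (A x.1)) (hd (A x.1)) x.2 j))
      (F := fun x j => (((4 * j + 6, 4 * x.2 + 2), (4 * j + 6, 4 * x.2 + 6)) : Seg)) ?_ ?_
    · exact Poly.filter (l := fun x : α × ℕ => List.range (q x.1 - 1))
        (p := fun x j => priv (M x.1) (tl (A x.1)) (hd (A x.1)) x.2 j)
        (Poly.comp (g := fun a => List.range (q a - 1)) r3 (Poly.fst Poly.id)) hpr
    · fun_prop
  have g4 : Poly (fun a => (List.range (q a)).flatMap (fun j => (List.range (p a - 1)).map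
      (fun r => (((4 * j + 2, 4 * r + 6), (4 * j + 6, 4 * r + 6)) : Seg)))) := by
    refine Poly.flatMap r2 (F := fun a j => (List.range (p a - 1)).map
      (fun r => (((4 * j + 2, 4 * r + 6), (4 * j + 6, 4 * r + 6)) : Seg))) ?_
    refine NPC.Poly.map (l := fun x : α × ℕ => List.range (p x.1 - 1))
      (F := fun x r => (((4 * x.2 + 2, 4 * r + 6), (4 * x.2 + 6, 4 * r + 6)) : Seg))
      (Poly.comp (g := fun a => List.range (p a - 1)) r4 (Poly.fst Poly.id)) ?_
    fun_prop
  have g5 : Poly (fun a => (List.range (2 * p a - 1)).map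
      (fun y => (((2, 2 * y + 2), (2, 2 * y + 4)) : Seg))) := by
    fun_prop
  have g6 : Poly (fun a => (List.range (2 * q a)).map
      (fun x => (((2 * x + 2, 2), (2 * x + 4, 2)) : Seg))) := by
    fun_prop
  have g7 : Poly (fun a => ((List.range (p a)).flatMap fun r => (List.range (q a - 1)).filter
      (priv (M a) (tl (A a)) (hd (A a)) r)).length) := by
    refine Poly.length ?_
    refine Poly.flatMap r1 (F := fun a r => (List.range (q a - 1)).filter
      (priv (M a) (tl (A a)) (hd (A a)) r)) ?_
    exact Poly.filter (l := fun x : α × ℕ => List.range (q x.1 - 1))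
      (p := fun x j => priv (M x.1) (tl (A x.1)) (hd (A x.1)) x.2 j)
      (Poly.comp (g := fun a => List.range (q a - 1)) r3 (Poly.fst Poly.id)) hpr
  refine Poly.pair (Poly.append g1 (Poly.append g2 (Poly.append g3 (Poly.append g4
    (Poly.append g5 g6))))) ?_
  have g8 : Poly (fun a => (A a).length) := Poly.length hA
  have h2 : Poly (fun _ : α => 2) := NPC.Poly.const 2
  have h1 : Poly (fun _ : α => 1) := NPC.Poly.const 1
  exact Poly.sub (Poly.add (Poly.add (Poly.add (Poly.mul hpP (Poly.sub hqP h1)) g7)
    (Poly.mul h2 (Poly.mul hqP (Poly.sub hpP h1)))) (Poly.mul h2 hk)) (Poly.mul (Poly.mul h2 hnP) g8)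

end

theorem poly_arcs2 : Poly arcs2 := by
  have h0 : Poly (fun G : FinGraph => List.range G.n) := (upoly_n Poly.id).range
  have h1 : Poly (fun G : FinGraph => G.n) := poly_n Poly.id
  have h2 : Poly (fun x : (FinGraph × ℕ) × ℕ => adjB x.1.1 x.1.2 x.2) :=
    poly_adjB (Poly.fst (Poly.fst Poly.id)) (Poly.snd (Poly.fst Poly.id)) (Poly.snd Poly.id)
  unfold arcs2
  refine Poly.flatMap h0 (F := fun G a => ((List.range G.n).filter fun b => adjB G a b).map
    fun b => (G.n + a, b)) ?_
  refine NPC.Poly.map (l := fun x : FinGraph × ℕ => (List.range x.1.n).filter fun b => adjB x.1 x.2 b)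
    (F := fun x b => (x.1.n + x.2, b)) ?_ ?_
  · exact Poly.filter (l := fun x : FinGraph × ℕ => List.range x.1.n)
      (p := fun x b => adjB x.1 x.2 b) (Poly.comp (g := fun G : FinGraph => List.range G.n) h0 (Poly.fst Poly.id)) h2
  · exact Poly.pair (Poly.add (Poly.comp h1 (Poly.fst (Poly.fst Poly.id)))
      (Poly.snd (Poly.fst Poly.id))) (Poly.snd Poly.id)

theorem poly_arcs : Poly arcs := by
  have h0 : Poly (fun G : FinGraph => List.range G.n) := (upoly_n Poly.id).range
  have h1 : Poly (fun G : FinGraph => G.n) := poly_n Poly.id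
  have h2 := poly_arcs2
  unfold arcs arcs1
  refine Poly.append (NPC.Poly.map h0 (F := fun G v => (v, G.n + v)) ?_) h2
  exact Poly.pair (Poly.snd Poly.id) (Poly.add (Poly.comp h1 (Poly.fst Poly.id)) (Poly.snd Poly.id))

theorem poly_red : Poly red := by
  unfold red
  refine poly_out (UPoly.mul (UPoly.const 2) (upoly_n (Poly.fst Poly.id)))
    (Poly.comp poly_arcs (Poly.fst Poly.id)) ?_
  exact Poly.add (Poly.length (Poly.comp poly_arcs2 (Poly.fst Poly.id))) (Poly.snd Poly.id)

/-- The independent set problem, for graphs with at least one vertex. -/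
theorem hardPr_indep_pos : HardPr (fun I : FinGraph × ℕ => 0 < I.1.n) HasIndep := by
  refine HardPr.trans hardPr_indep
    (f := fun I => if I.2 = 0 then ((⟨1, ⊥⟩ : FinGraph), 1) else I) ?_ ?_ ?_
  · exact Poly.ite (Poly.decide_eq (Poly.snd Poly.id) (NPC.Poly.const 0)) (NPC.Poly.const _) Poly.id
  · rintro I ⟨_, hn⟩
    split_ifs with h
    · exact Nat.one_pos
    · omega
  · rintro I ⟨_, hn⟩
    split_ifs with h
    · refine iff_of_true ?_ ?_
      · refine ⟨∅, ?_, by simp [h]⟩
        intro a ha
        simp at ha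
      · refine ⟨{0}, ?_, by simp⟩
        intro a ha b hb hab
        simp
    · exact Iff.rfl

/-- For the instances produced by the reduction, the restriction is satisfied. -/
theorem red_grid {I : FinGraph × ℕ} (hI : 0 < I.1.n) :
    MaxTotalSwitchesGrid (red I) ↔ MaxTotalSwitches (red I) := by
  have hm : 0 < (arcs I.1).length := by
    unfold arcs arcs1
    rw [List.length_append, List.length_map, List.length_range]
    omega
  refine ⟨fun h => h.2.2, fun h => ⟨axis_boxes, coord_boxes ?_ (by omega), h⟩⟩
  unfold nrows packSize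
  omega

theorem hard' : HardI MaxTotalSwitches :=
  (HardPr.trans hardPr_indep_pos poly_red (Pr' := fun _ => True) (fun _ _ => trivial)
    (fun _ hI => (red_correct hI).trans (red_grid hI))).toHardI

theorem hard : HardI MaxTotalSwitchesGrid :=
  (HardPr.trans hardPr_indep_pos poly_red (Pr' := fun _ => True) (fun _ _ => trivial)
    (fun _ hI => red_correct hI)).toHardI

end Pool.Agent.R553.SW
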