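import Mathlib

/-!
# The combinatorics of the reduction

`s r j` tells whether row `r` is above column `j`.
-/

namespace Pool.Agent.R553.SW

open Finset

/-- The rows: `n + 1` packs of `M` rows, separated by the `n` node rows. -/
def nrows (n M : ℕ) : ℕ := n * (M + 1) + M

/-- The row of node `i`. -/
def R (M i : ℕ) : ℕ := i * (M + 1) + M

/-- Is there a private edge between the columns `j` and `j + 1` on row `r`? -/
def priv (M : ℕ) (U V : ℕ → ℕ) (r j : ℕ) : Bool :=
  if j % 5 = 1 ∨ j % 5 = 2 then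
    if r % (M + 1) = M then
      if U (j / 5) = r / (M + 1) then false
      else if V (j / 5) = r / (M + 1) then true
      else decide (j % 5 = 2)
    else decide ((r / (M + 1)) % 2 = 1)
  else true

/-- failures along rows -/
def hf (M : ℕ) (U V : ℕ → ℕ) (s : ℕ → ℕ → Bool) (r j : ℕ) : ℕ :=
  ((s r j ^^ s r (j + 1)) == priv M U V r j).toNat

/-- failures along columns -/
def vf (s : ℕ → ℕ → Bool) (r j : ℕ) : ℕ := (s r j ^^ s (r + 1) j).toNat

/-- The total number of failures along rows. -/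
def HF (n m M : ℕ) (U V : ℕ → ℕ) (s : ℕ → ℕ → Bool) : ℕ :=
  ∑ r ∈ range (nrows n M), ∑ j ∈ range (5 * m - 1), hf M U V s r j

/-- The total number of failures along columns. -/
def VF (n m M : ℕ) (s : ℕ → ℕ → Bool) : ℕ :=
  ∑ j ∈ range (5 * m), ∑ r ∈ range (nrows n M - 1), vf s r j

theorem div_R (M i : ℕ) : R M i / (M + 1) = i := by
  unfold R
  rw [Nat.add_comm, Nat.mul_comm, Nat.add_mul_div_left _ _ (Nat.succ_pos M),
    Nat.div_eq_of_lt (Nat.lt_succ_self M), Nat.zero_add]

theorem mod_R (M i : ℕ) : R M i % (M + 1) = M := by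
  unfold R
  rw [Nat.add_comm, Nat.mul_comm, Nat.add_mul_mod_self_left, Nat.mod_eq_of_lt (Nat.lt_succ_self M)]

theorem div_pack {M i c : ℕ} (h1 : i * (M + 1) ≤ c) (h2 : c < i * (M + 1) + M) :
    c / (M + 1) = i := by
  obtain ⟨d, rfl⟩ := Nat.exists_eq_add_of_le h1
  rw [Nat.add_comm, Nat.mul_comm, Nat.add_mul_div_left _ _ (Nat.succ_pos M),
    Nat.div_eq_of_lt (by omega), Nat.zero_add]

theorem mod_pack {M i c : ℕ} (h1 : i * (M + 1) ≤ c) (h2 : c < i * (M + 1) + M) :
    c % (M + 1) ≠ M := by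
  obtain ⟨d, rfl⟩ := Nat.exists_eq_add_of_le h1
  rw [Nat.add_comm, Nat.mul_comm, Nat.add_mul_mod_self_left, Nat.mod_eq_of_lt (by omega)]
  omega

theorem sum_blocks (f : ℕ → ℕ) (m : ℕ) : ∑ j ∈ range (5 * m), f j =
    ∑ w ∈ range m, (f (5 * w) + f (5 * w + 1) + f (5 * w + 2) + f (5 * w + 3) + f (5 * w + 4)) := by
  induction m with
  | zero => simp
  | succ m ih =>
    rw [show 5 * (m + 1) = 5 * m + 1 + 1 + 1 + 1 + 1 by ring, sum_range_succ, sum_range_succ,
      sum_range_succ, sum_range_succ, sum_range_succ, ih, sum_range_succ]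
    ring

theorem sum_holes_le (f : ℕ → ℕ) (m : ℕ) :
    ∑ w ∈ range m, (f (5 * w + 1) + f (5 * w + 2)) ≤ ∑ j ∈ range (5 * m - 1), f j := by
  rcases m with _ | m
  · simp
  · rw [show 5 * (m + 1) - 1 = 5 * m + 1 + 1 + 1 + 1 by omega]
    simp only [sum_range_succ]
    rw [sum_blocks]
    have : ∑ w ∈ range m, (f (5 * w + 1) + f (5 * w + 2)) ≤
        ∑ w ∈ range m, (f (5 * w) + f (5 * w + 1) + f (5 * w + 2) + f (5 * w + 3) +
          f (5 * w + 4)) := sum_le_sum fun w _ => by omega
    omega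

/-! ### Lower bound -/

/-- Along a column, the failures between two rows count at least one if the ends differ. -/
theorem chain (s : ℕ → ℕ → Bool) (j a b : ℕ) (h : a ≤ b) :
    (s a j ^^ s b j).toNat ≤ ∑ r ∈ Ico a b, vf s r j := by
  induction b, h using Nat.le_induction with
  | base => simp
  | succ b hb ih =>
    rw [sum_Ico_succ_top hb]
    unfold vf at ih ⊢
    revert ih
    cases s a j <;> cases s b j <;> cases s (b + 1) j <;> simp

theorem chain2 (s : ℕ → ℕ → Bool) (j a b c : ℕ) (h : a ≤ b) (h' : b ≤ c) :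
    (s a j ^^ s b j).toNat + (s b j ^^ s c j).toNat ≤ ∑ r ∈ Ico a c, vf s r j := by
  rw [← sum_Ico_consecutive _ h h']
  exact add_le_add (chain s j a b h) (chain s j b c h')

/-- The pattern on a row without failures. -/
theorem perfect {M m : ℕ} {U V : ℕ → ℕ} {s : ℕ → ℕ → Bool} {i c : ℕ}
    (h1 : i * (M + 1) ≤ c) (h2 : c < i * (M + 1) + M)
    (h : ∀ j < 5 * m - 1, hf M U V s c j = 0) :
    ∀ j < 5 * m, s c j = (s c 0 ^^ (decide (j % 5 = 2) && decide (i % 2 = 0))) := by
  intro j
  induction j with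
  | zero => simp
  | succ j ih =>
    intro hj
    have ih := ih (by omega)
    have hh := h j (by omega)
    unfold hf priv at hh
    rw [if_neg (mod_pack h1 h2), div_pack h1 h2, ih] at hh
    have h5 : j % 5 < 5 := Nat.mod_lt _ (by norm_num)
    rcases Nat.mod_two_eq_zero_or_one i with hi | hi
    · have hs : (j + 1) % 5 = (j % 5 + 1) % 5 := by omega
      rw [hs]
      generalize j % 5 = d at *
      rw [hi] at hh ⊢
      revert hh
      generalize s c 0 = x
      generalize s c (j + 1) = y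
      interval_cases d <;> revert x y <;> decide
    · have hs : (j + 1) % 5 = (j % 5 + 1) % 5 := by omega
      rw [hs]
      generalize j % 5 = d at *
      rw [hi] at hh ⊢
      revert hh
      generalize s c 0 = x
      generalize s c (j + 1) = y
      interval_cases d <;> revert x y <;> decide

/-- The failures that are charged to node `i` and arc `w`. -/
def loc (M : ℕ) (U V : ℕ → ℕ) (s : ℕ → ℕ → Bool) (c : ℕ → ℕ) (i w : ℕ) : ℕ :=
  (∑ r ∈ Ico (c i) (c (i + 1)), vf s r (5 * w)) + (∑ r ∈ Ico (c i) (c (i + 1)), vf s r (5 * w + 1))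
    + (∑ r ∈ Ico (c i) (c (i + 1)), vf s r (5 * w + 2))
    + (∑ r ∈ Ico (c i) (c (i + 1)), vf s r (5 * w + 3))
    + (∑ r ∈ Ico (c i) (c (i + 1)), vf s r (5 * w + 4))
    + (hf M U V s (R M i) (5 * w + 1) + hf M U V s (R M i) (5 * w + 2))

theorem loc_bound_aux : ∀ (t t' x0 x1 x2 x3 x4 e pa pb : Bool) (k : ℕ),
    (k = 0 → pa = false ∧ pb = false) → (k = 1 → pa = true ∧ pb = true) →
    (k = 2 → pa = false ∧ pb = true) → k < 3 →
    let L := (t ^^ x0).toNat + (x0 ^^ t').toNat + ((t ^^ x1).toNat + (x1 ^^ t').toNat) +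
      (((t ^^ e) ^^ x2).toNat + (x2 ^^ (t' ^^ !e)).toNat) + ((t ^^ x3).toNat + (x3 ^^ t').toNat) +
      ((t ^^ x4).toNat + (x4 ^^ t').toNat) + (((x1 ^^ x2) == pa).toNat + ((x2 ^^ x3) == pb).toNat)
    (t ≠ t' → 4 ≤ L) ∧ (t = t' → 1 + (if k = 0 then 2 * (x2 == t).toNat else
      if k = 1 then 2 * (x2 ^^ t).toNat else 1) ≤ L) := by
  intro t t' x0 x1 x2 x3 x4 e pa pb k h0 h1 h2 hk
  interval_cases k
  · obtain ⟨rfl, rfl⟩ := h0 rfl
    clear h0 h1 h2
    revert t t' x0 x1 x2 x3 x4 e
    decide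
  · obtain ⟨rfl, rfl⟩ := h1 rfl
    clear h0 h1 h2
    revert t t' x0 x1 x2 x3 x4 e
    decide
  · obtain ⟨rfl, rfl⟩ := h2 rfl
    clear h0 h1 h2
    revert t t' x0 x1 x2 x3 x4 e
    decide

theorem loc_bound {n m M : ℕ} {U V : ℕ → ℕ} (s : ℕ → ℕ → Bool) (c : ℕ → ℕ)
    (hc : ∀ i ≤ n, i * (M + 1) ≤ c i ∧ c i < i * (M + 1) + M)
    (hp : ∀ i ≤ n, ∀ j < 5 * m - 1, hf M U V s (c i) j = 0)
    {i w : ℕ} (hi : i < n) (hw : w < m) :
    (s (c i) 0 ≠ s (c (i + 1)) 0 → 4 ≤ loc M U V s c i w) ∧
    (s (c i) 0 = s (c (i + 1)) 0 → 1 +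
      (if U w = i then 2 * (s (R M i) (5 * w + 2) == s (c i) 0).toNat else
        if V w = i then 2 * (s (R M i) (5 * w + 2) ^^ s (c i) 0).toNat else 1) ≤
      loc M U V s c i w) := by
  have hR1 : c i ≤ R M i := by
    have := (hc i hi.le).2
    unfold R
    omega
  have hR2 : R M i ≤ c (i + 1) := by
    have := (hc (i + 1) hi).1
    have h2 : (i + 1) * (M + 1) = i * (M + 1) + M + 1 := by ring
    unfold R
    omega
  have hp1 := perfect (hc i hi.le).1 (hc i hi.le).2 (hp i hi.le)
  have hp2 := perfect (hc (i + 1) hi).1 (hc (i + 1) hi).2 (hp (i + 1) hi)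
  have hloc : ∀ d < 5, (s (c i) (5 * w + d) ^^ s (R M i) (5 * w + d)).toNat +
      (s (R M i) (5 * w + d) ^^ s (c (i + 1)) (5 * w + d)).toNat ≤
      ∑ r ∈ Ico (c i) (c (i + 1)), vf s r (5 * w + d) := fun d _ => chain2 s _ _ _ _ hR1 hR2
  have hval : ∀ d < 5, s (c i) (5 * w + d) = (s (c i) 0 ^^ (decide (d = 2) && decide (i % 2 = 0))) ∧
      s (c (i + 1)) (5 * w + d) =
        (s (c (i + 1)) 0 ^^ (decide (d = 2) && !decide (i % 2 = 0))) := by
    intro d hd
    have h5 : (5 * w + d) % 5 = d := by omega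
    constructor
    · have := hp1 (5 * w + d) (by omega)
      rw [h5] at this
      exact this
    · have := hp2 (5 * w + d) (by omega)
      rw [h5] at this
      rw [this]
      congr 2
      rcases Nat.mod_two_eq_zero_or_one i with h | h
      · have h' : (i + 1) % 2 = 1 := by omega
        simp [h, h']
      · have h' : (i + 1) % 2 = 0 := by omega
        simp [h, h']
  have e0 := hloc 0 (by norm_num)
  have e1 := hloc 1 (by norm_num)
  have e2 := hloc 2 (by norm_num)
  have e3 := hloc 3 (by norm_num)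
  have e4 := hloc 4 (by norm_num)
  rw [(hval 0 (by norm_num)).1, (hval 0 (by norm_num)).2] at e0
  rw [(hval 1 (by norm_num)).1, (hval 1 (by norm_num)).2] at e1
  rw [(hval 2 (by norm_num)).1, (hval 2 (by norm_num)).2] at e2
  rw [(hval 3 (by norm_num)).1, (hval 3 (by norm_num)).2] at e3
  rw [(hval 4 (by norm_num)).1, (hval 4 (by norm_num)).2] at e4
  have h51 : (5 * w + 1) % 5 = 1 := by omega
  have h52 : (5 * w + 2) % 5 = 2 := by omega
  have h51' : (5 * w + 1) / 5 = w := by omega
  have h52' : (5 * w + 2) / 5 = w := by omega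
  set k : ℕ := if U w = i then 0 else if V w = i then 1 else 2 with hk
  have hpa : priv M U V (R M i) (5 * w + 1) =
      (if U w = i then false else if V w = i then true else false) := by
    unfold priv
    rw [if_pos (Or.inl h51), if_pos (mod_R M i), div_R, h51', h51]
    simp
  have hpb : priv M U V (R M i) (5 * w + 2) =
      (if U w = i then false else if V w = i then true else true) := by
    unfold priv
    rw [if_pos (Or.inr h52), if_pos (mod_R M i), div_R, h52', h52]
    simp
  have key := loc_bound_aux (s (c i) 0) (s (c (i + 1)) 0) (s (R M i) (5 * w))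
    (s (R M i) (5 * w + 1)) (s (R M i) (5 * w + 2)) (s (R M i) (5 * w + 3))
    (s (R M i) (5 * w + 4)) (decide (i % 2 = 0)) (priv M U V (R M i) (5 * w + 1))
    (priv M U V (R M i) (5 * w + 2)) k
    (by
      intro h
      rw [hpa, hpb]
      by_cases h1 : U w = i
      · simp [h1]
      · by_cases h2 : V w = i <;> simp [hk, h1, h2] at h)
    (by
      intro h
      rw [hpa, hpb]
      by_cases h1 : U w = i
      · simp [hk, h1] at h
      · by_cases h2 : V w = i
        · simp [h1, h2]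
        · simp [hk, h1, h2] at h)
    (by
      intro h
      rw [hpa, hpb]
      by_cases h1 : U w = i
      · simp [hk, h1] at h
      · by_cases h2 : V w = i
        · simp [hk, h1, h2] at h
        · simp [h1, h2])
    (by
      rw [hk]
      split_ifs <;> norm_num)
  have hL : ((s (c i) 0 ^^ s (R M i) (5 * w)).toNat + (s (R M i) (5 * w) ^^ s (c (i + 1)) 0).toNat +
      ((s (c i) 0 ^^ s (R M i) (5 * w + 1)).toNat +
        (s (R M i) (5 * w + 1) ^^ s (c (i + 1)) 0).toNat) +
      (((s (c i) 0 ^^ (decide (i % 2 = 0))) ^^ s (R M i) (5 * w + 2)).toNat +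
        (s (R M i) (5 * w + 2) ^^ (s (c (i + 1)) 0 ^^ !(decide (i % 2 = 0)))).toNat) +
      ((s (c i) 0 ^^ s (R M i) (5 * w + 3)).toNat +
        (s (R M i) (5 * w + 3) ^^ s (c (i + 1)) 0).toNat) +
      ((s (c i) 0 ^^ s (R M i) (5 * w + 4)).toNat +
        (s (R M i) (5 * w + 4) ^^ s (c (i + 1)) 0).toNat) +
      (((s (R M i) (5 * w + 1) ^^ s (R M i) (5 * w + 2)) == priv M U V (R M i) (5 * w + 1)).toNat +
        ((s (R M i) (5 * w + 2) ^^ s (R M i) (5 * w + 3)) ==
          priv M U V (R M i) (5 * w + 2)).toNat)) ≤ loc M U V s c i w := by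
    unfold loc
    refine add_le_add (add_le_add (add_le_add (add_le_add (add_le_add ?_ ?_) ?_) ?_) ?_) le_rfl
    · simpa using e0
    · simpa using e1
    · simpa using e2
    · simpa using e3
    · simpa using e4
  refine ⟨fun h => (key.1 h).trans hL, fun h => le_trans (le_of_eq ?_) ((key.2 h).trans hL)⟩
  congr 1
  rw [hk]
  by_cases h1 : U w = i
  · simp [h1]
  · by_cases h2 : V w = i <;> simp [h1, h2]

theorem R_inj (M : ℕ) : Function.Injective (R M) := by
  intro i j h
  rw [← div_R M i, h, div_R]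

theorem R_lt {n M i : ℕ} (h : i < n) : R M i < nrows n M := by
  unfold R nrows
  have : i * (M + 1) < n * (M + 1) := Nat.mul_lt_mul_of_pos_right h (Nat.succ_pos M)
  omega

theorem c_mono {n M : ℕ} {c : ℕ → ℕ}
    (hc : ∀ i ≤ n, i * (M + 1) ≤ c i ∧ c i < i * (M + 1) + M) {i : ℕ} (hi : i < n) :
    c i ≤ c (i + 1) := by
  have h1 := (hc i hi.le).2
  have h2 := (hc (i + 1) hi).1
  have h3 : (i + 1) * (M + 1) = i * (M + 1) + M + 1 := by ring
  omega

theorem ico_sum {n M : ℕ} {c : ℕ → ℕ}
    (hc : ∀ i ≤ n, i * (M + 1) ≤ c i ∧ c i < i * (M + 1) + M) (f : ℕ → ℕ) :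
    ∀ k ≤ n, ∑ i ∈ range k, ∑ r ∈ Ico (c i) (c (i + 1)), f r = ∑ r ∈ Ico (c 0) (c k), f r ∧
      c 0 ≤ c k := by
  intro k
  induction k with
  | zero => simp
  | succ k ih =>
    intro hk
    obtain ⟨h1, h2⟩ := ih (by omega)
    have h3 := c_mono hc (show k < n by omega)
    rw [sum_range_succ, h1, sum_Ico_consecutive _ h2 h3]
    exact ⟨rfl, h2.trans h3⟩

theorem ico_sum_le {n M : ℕ} {c : ℕ → ℕ}
    (hc : ∀ i ≤ n, i * (M + 1) ≤ c i ∧ c i < i * (M + 1) + M) (f : ℕ → ℕ) :
    ∑ i ∈ range n, ∑ r ∈ Ico (c i) (c (i + 1)), f r ≤ ∑ r ∈ range (nrows n M - 1), f r := by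
  rw [(ico_sum hc f n le_rfl).1]
  apply sum_le_sum_of_subset
  intro r hr
  rw [mem_Ico] at hr
  have := (hc n le_rfl).2
  rw [mem_range]
  unfold nrows
  omega

theorem sum_R_le (n M : ℕ) (f : ℕ → ℕ) :
    ∑ i ∈ range n, f (R M i) ≤ ∑ r ∈ range (nrows n M), f r := by
  rw [← sum_image (f := f) (s := range n) (g := R M) (fun i _ j _ h => R_inj M h)]
  apply sum_le_sum_of_subset
  intro r hr
  obtain ⟨i, hi, rfl⟩ := mem_image.1 hr
  exact mem_range.2 (R_lt (mem_range.1 hi))

theorem sum_loc_le {n m M : ℕ} {U V : ℕ → ℕ} (s : ℕ → ℕ → Bool) (c : ℕ → ℕ)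
    (hc : ∀ i ≤ n, i * (M + 1) ≤ c i ∧ c i < i * (M + 1) + M) :
    ∑ w ∈ range m, ∑ i ∈ range n, loc M U V s c i w ≤ HF n m M U V s + VF n m M s := by
  have h1 : ∑ w ∈ range m, ∑ i ∈ range n, loc M U V s c i w =
      (∑ w ∈ range m, ∑ i ∈ range n, (hf M U V s (R M i) (5 * w + 1) +
        hf M U V s (R M i) (5 * w + 2))) +
      ∑ w ∈ range m, ((∑ i ∈ range n, ∑ r ∈ Ico (c i) (c (i + 1)), vf s r (5 * w)) +
        (∑ i ∈ range n, ∑ r ∈ Ico (c i) (c (i + 1)), vf s r (5 * w + 1)) +
        (∑ i ∈ range n, ∑ r ∈ Ico (c i) (c (i + 1)), vf s r (5 * w + 2)) +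
        (∑ i ∈ range n, ∑ r ∈ Ico (c i) (c (i + 1)), vf s r (5 * w + 3)) +
        (∑ i ∈ range n, ∑ r ∈ Ico (c i) (c (i + 1)), vf s r (5 * w + 4))) := by
    rw [← sum_add_distrib]
    refine sum_congr rfl fun w _ => ?_
    rw [← sum_add_distrib, ← sum_add_distrib, ← sum_add_distrib, ← sum_add_distrib,
      ← sum_add_distrib]
    refine sum_congr rfl fun i _ => ?_
    unfold loc
    ring
  rw [h1]
  refine add_le_add ?_ ?_
  · rw [sum_comm]
    refine le_trans (sum_le_sum fun i _ => sum_holes_le (hf M U V s (R M i)) m) ?_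
    exact sum_R_le n M fun r => ∑ j ∈ range (5 * m - 1), hf M U V s r j
  · unfold VF
    rw [sum_blocks (fun j => ∑ r ∈ range (nrows n M - 1), vf s r j)]
    refine sum_le_sum fun w _ => ?_
    exact add_le_add (add_le_add (add_le_add (add_le_add (ico_sum_le hc _) (ico_sum_le hc _))
      (ico_sum_le hc _)) (ico_sum_le hc _)) (ico_sum_le hc _)

theorem sum_flip {n u v i0 : ℕ} (f : ℕ → ℕ) (hi0 : i0 < n) (h4 : 4 ≤ f i0)
    (h1 : ∀ i < n, 1 ≤ f i) (h2 : ∀ i < n, i ≠ u → i ≠ v → 2 ≤ f i) :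
    2 * n ≤ ∑ i ∈ range n, f i := by
  have key : ∑ i ∈ range n, (2 + if i = i0 then 2 else 0) ≤
      ∑ i ∈ range n, (f i + (if i = u then 1 else 0) + (if i = v then 1 else 0)) := by
    refine sum_le_sum fun i hi => ?_
    rw [mem_range] at hi
    have h1 := h1 i hi
    have h2 := h2 i hi
    by_cases hz : i = i0
    · subst hz
      rw [if_pos rfl]
      omega
    · rw [if_neg hz]
      split_ifs <;> omega
  rw [sum_add_distrib, sum_add_distrib, sum_add_distrib, sum_const, card_range, sum_ite_eq',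
    if_pos (mem_range.2 hi0), sum_ite_eq', sum_ite_eq'] at key
  simp only [smul_eq_mul] at key
  have : (if u ∈ range n then 1 else 0) ≤ 1 := by split_ifs <;> simp
  have : (if v ∈ range n then 1 else 0) ≤ 1 := by split_ifs <;> simp
  omega

theorem sum_pair {n u v : ℕ} (f : ℕ → ℕ) (hu : u < n) (hv : v < n) (huv : u ≠ v)
    (h2 : ∀ i < n, i ≠ u → i ≠ v → 2 ≤ f i) :
    2 * n + f u + f v ≤ (∑ i ∈ range n, f i) + 4 := by
  have key : ∑ i ∈ range n, (2 + (if i = u then f u else 0) + (if i = v then f v else 0)) ≤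
      ∑ i ∈ range n, (f i + (if i = u then 2 else 0) + (if i = v then 2 else 0)) := by
    refine sum_le_sum fun i hi => ?_
    rw [mem_range] at hi
    have h2 := h2 i hi
    by_cases hz : i = u
    · subst hz
      simp [huv]
      omega
    · by_cases hz' : i = v
      · subst hz'
        simp [hz]
        omega
      · simp [hz, hz']
        exact h2 hz hz'
  rw [sum_add_distrib, sum_add_distrib, sum_add_distrib, sum_add_distrib, sum_const, card_range,
    sum_ite_eq', if_pos (mem_range.2 hu), sum_ite_eq', if_pos (mem_range.2 hv), sum_ite_eq',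
    if_pos (mem_range.2 hu), sum_ite_eq', if_pos (mem_range.2 hv)] at key
  simp only [smul_eq_mul] at key
  omega

/-- The comparison matrix of heights. -/
def cmp (a b : ℕ → ℕ) (r j : ℕ) : Bool := decide (b j < a r)

theorem lower {n m M : ℕ} {U V : ℕ → ℕ} (hU : ∀ w < m, U w < n) (hV : ∀ w < m, V w < n)
    (hne : ∀ w < m, U w ≠ V w) (hM : 2 * n * m ≤ M) (a b : ℕ → ℕ) :
    ∃ h : ℕ → ℤ, 2 * n * m ≤ HF n m M U V (cmp a b) + VF n m M (cmp a b) +
      2 * ((range m).filter fun w => h (V w) < h (U w)).card := by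
  set s := cmp a b with hs
  by_cases hA : ∀ i ≤ n, ∃ c, i * (M + 1) ≤ c ∧ c < i * (M + 1) + M ∧
      ∀ j < 5 * m - 1, hf M U V s c j = 0
  swap
  · push Not at hA
    obtain ⟨i, hi, hA⟩ := hA
    refine ⟨fun _ => 0, ?_⟩
    have h1 : M ≤ HF n m M U V s := by
      unfold HF
      calc M = ∑ _r ∈ Ico (i * (M + 1)) (i * (M + 1) + M), 1 := by simp
        _ ≤ ∑ r ∈ Ico (i * (M + 1)) (i * (M + 1) + M), ∑ j ∈ range (5 * m - 1), hf M U V s r j := by
            refine sum_le_sum fun r hr => ?_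
            rw [mem_Ico] at hr
            obtain ⟨j, hj, hne⟩ := hA r hr.1 hr.2
            exact (Nat.one_le_iff_ne_zero.2 hne).trans
              (single_le_sum (f := fun j => hf M U V s r j) (fun _ _ => Nat.zero_le _)
                (mem_range.2 hj))
        _ ≤ _ := by
            apply sum_le_sum_of_subset
            intro r hr
            rw [mem_Ico] at hr
            rw [mem_range]
            unfold nrows
            have : i * (M + 1) ≤ n * (M + 1) := Nat.mul_le_mul_right _ hi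
            omega
    omega
  choose! c hc1 hc2 hc3 using hA
  have hc : ∀ i ≤ n, i * (M + 1) ≤ c i ∧ c i < i * (M + 1) + M := fun i hi =>
    ⟨hc1 i hi, hc2 i hi⟩
  have hsum := sum_loc_le (m := m) (U := U) (V := V) s c hc
  have hb : ∀ i < n, ∀ w < m, _ := fun i hi w hw =>
    loc_bound (m := m) (U := U) (V := V) s c hc hc3 hi hw
  by_cases hflip : ∃ i0 < n, s (c i0) 0 ≠ s (c (i0 + 1)) 0
  · obtain ⟨i0, hi0, hfl⟩ := hflip
    refine ⟨fun _ => 0, ?_⟩
    have h1 : ∀ w < m, 2 * n ≤ ∑ i ∈ range n, loc M U V s c i w := by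
      intro w hw
      refine sum_flip (u := U w) (v := V w) _ hi0 ((hb i0 hi0 w hw).1 hfl) ?_ ?_
      · intro i hi
        by_cases h : s (c i) 0 = s (c (i + 1)) 0
        · have := (hb i hi w hw).2 h
          omega
        · have := (hb i hi w hw).1 h
          omega
      · intro i hi h1 h2
        by_cases h : s (c i) 0 = s (c (i + 1)) 0
        · have := (hb i hi w hw).2 h
          rw [if_neg (Ne.symm h1), if_neg (Ne.symm h2)] at this
          omega
        · have := (hb i hi w hw).1 h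
          omega
    have h2 : ∑ _w ∈ range m, 2 * n ≤ ∑ w ∈ range m, ∑ i ∈ range n, loc M U V s c i w :=
      sum_le_sum fun w hw => h1 w (mem_range.1 hw)
    rw [sum_const, card_range, smul_eq_mul] at h2
    have h3 : m * (2 * n) = 2 * n * m := by ring
    omega
  · push Not at hflip
    have hconst : ∀ i ≤ n, s (c i) 0 = s (c 0) 0 := by
      intro i
      induction i with
      | zero => intro _; rfl
      | succ i ih =>
        intro hi
        rw [← hflip i (by omega), ih (by omega)]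
    have hb' : ∀ i < n, ∀ w < m, 1 +
      (if U w = i then 2 * (s (R M i) (5 * w + 2) == s (c 0) 0).toNat else
        if V w = i then 2 * (s (R M i) (5 * w + 2) ^^ s (c 0) 0).toNat else 1) ≤
      loc M U V s c i w := by
      intro i hi w hw
      have := (hb i hi w hw).2 (hflip i hi)
      rwa [hconst i hi.le] at this
    set t := s (c 0) 0 with ht
    let h : ℕ → ℤ := fun i => if t then -(a (R M i) : ℤ) else (a (R M i) : ℤ)
    refine ⟨h, ?_⟩
    have h1 : ∀ w ∈ range m, 2 * n ≤ (∑ i ∈ range n, loc M U V s c i w) +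
        2 * (if h (V w) < h (U w) then 1 else 0) := by
      intro w hw
      rw [mem_range] at hw
      have hp := sum_pair (fun i => loc M U V s c i w) (hU w hw) (hV w hw) (hne w hw) (by
        intro i hi h1 h2
        have := hb' i hi w hw
        rw [if_neg (Ne.symm h1), if_neg (Ne.symm h2)] at this
        exact this)
      have hu := hb' (U w) (hU w hw) w hw
      have hv := hb' (V w) (hV w hw) w hw
      rw [if_pos rfl] at hu
      rw [if_neg (hne w hw), if_pos rfl] at hv
      by_cases hsat : h (V w) < h (U w)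
      · rw [if_pos hsat]
        omega
      · rw [if_neg hsat]
        have : 1 ≤ (s (R M (U w)) (5 * w + 2) == t).toNat +
            (s (R M (V w)) (5 * w + 2) ^^ t).toNat := by
          by_contra hcon
          apply hsat
          have e1 : (s (R M (U w)) (5 * w + 2) == t).toNat = 0 := by omega
          have e2 : (s (R M (V w)) (5 * w + 2) ^^ t).toNat = 0 := by omega
          simp only [h]
          rcases Bool.eq_false_or_eq_true t with h' | h'
          · rw [h'] at e1 e2 ⊢
            rw [hs] at e1 e2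
            unfold cmp at e1 e2
            simp at e1 e2 ⊢
            omega
          · rw [h'] at e1 e2 ⊢
            rw [hs] at e1 e2
            unfold cmp at e1 e2
            simp at e1 e2 ⊢
            omega
        omega
    have h2 : ∑ _w ∈ range m, 2 * n ≤ ∑ w ∈ range m, ((∑ i ∈ range n, loc M U V s c i w) +
        2 * (if h (V w) < h (U w) then 1 else 0)) := sum_le_sum h1
    rw [sum_const, card_range, smul_eq_mul, sum_add_distrib, ← mul_sum, ← card_filter] at h2
    have h3 : m * (2 * n) = 2 * n * m := by ring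
    omega

/-! ### The casing of an order -/

/-- heights of the rows -/
def ha (M H : ℕ) (h : ℕ → ℕ) (r : ℕ) : ℕ :=
  if r % (M + 1) = M then 2 * h (r / (M + 1)) + 3 else if (r / (M + 1)) % 2 = 0 then 2 * H + 5 else 1

/-- heights of the columns -/
def hb (H : ℕ) (U : ℕ → ℕ) (h : ℕ → ℕ) (j : ℕ) : ℕ :=
  if j % 5 = 2 then 2 * h (U (j / 5)) + 2 else 2 * H + 6

section Achieve

variable {n m M H : ℕ} {U V : ℕ → ℕ} {h : ℕ → ℕ}

theorem node_lt {r : ℕ} (hr : r < nrows n M) (hm : r % (M + 1) = M) : r / (M + 1) < n := by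
  unfold nrows at hr
  by_contra hcon
  push Not at hcon
  have h1 := Nat.div_add_mod r (M + 1)
  have h2 : (M + 1) * n ≤ (M + 1) * (r / (M + 1)) := Nat.mul_le_mul_left _ hcon
  rw [hm] at h1
  have h3 : n * (M + 1) = (M + 1) * n := Nat.mul_comm _ _
  omega

theorem s_T (hH : ∀ i < n, h i ≤ H) {r j : ℕ} (hr : r < nrows n M) (hj : j % 5 ≠ 2) :
    cmp (ha M H h) (hb H U h) r j = false := by
  unfold cmp ha hb
  rw [if_neg hj, decide_eq_false_iff_not]
  by_cases hm : r % (M + 1) = M
  · have := hH _ (node_lt hr hm)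
    rw [if_pos hm]
    omega
  · rw [if_neg hm]
    split_ifs <;> omega

theorem s_pack (hH : ∀ i < n, h i ≤ H) (hU : ∀ w < m, U w < n) {r j : ℕ}
    (hm : r % (M + 1) ≠ M) (hj : j % 5 = 2) (hj' : j < 5 * m) :
    cmp (ha M H h) (hb H U h) r j = decide ((r / (M + 1)) % 2 = 0) := by
  unfold cmp ha hb
  rw [if_pos hj, if_neg hm]
  have := hH _ (hU (j / 5) (by omega))
  split_ifs with h2
  · simp [h2]
    omega
  · simp [h2]

theorem s_node {i w : ℕ} :
    cmp (ha M H h) (hb H U h) (R M i) (5 * w + 2) = decide (h (U w) ≤ h i) := by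
  unfold cmp ha hb
  rw [if_pos (by omega), if_pos (mod_R M i), div_R, show (5 * w + 2) / 5 = w by omega]
  congr 1
  apply propext
  omega

theorem hf_pack (hH : ∀ i < n, h i ≤ H) (hU : ∀ w < m, U w < n) {r j : ℕ}
    (hr : r < nrows n M) (hm : r % (M + 1) ≠ M) (hj : j < 5 * m) :
    hf M U V (cmp (ha M H h) (hb H U h)) r j = 0 := by
  unfold hf priv
  rw [if_neg hm]
  by_cases h1 : j % 5 = 1
  · rw [s_T hH hr (show j % 5 ≠ 2 by omega), s_pack hH hU hm (show (j + 1) % 5 = 2 by omega)
      (by omega), if_pos (Or.inl h1)]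
    rcases Nat.mod_two_eq_zero_or_one (r / (M + 1)) with h | h <;> simp [h]
  · by_cases h2 : j % 5 = 2
    · rw [s_T hH hr (show (j + 1) % 5 ≠ 2 by omega), s_pack hH hU hm h2 hj, if_pos (Or.inr h2)]
      rcases Nat.mod_two_eq_zero_or_one (r / (M + 1)) with h | h <;> simp [h]
    · rw [s_T hH hr h2, s_T hH hr (show (j + 1) % 5 ≠ 2 by omega), if_neg (by tauto)]
      simp

/-- The failures along the row of node `i` at the column of arc `w`. -/
def cnt (U V : ℕ → ℕ) (h : ℕ → ℕ) (i w : ℕ) : ℕ :=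
  if i = U w then 0 else if i = V w then (if h (V w) < h (U w) then 0 else 2) else 1

theorem hf_node (hH : ∀ i < n, h i ≤ H) {i : ℕ} (hi : i < n) :
    ∑ j ∈ range (5 * m - 1), hf M U V (cmp (ha M H h) (hb H U h)) (R M i) j ≤
      ∑ w ∈ range m, cnt U V h i w := by
  refine (sum_le_sum_of_subset (t := range (5 * m)) (fun j hj => ?_)).trans ?_
  · rw [mem_range] at hj ⊢
    omega
  rw [sum_blocks]
  refine sum_le_sum fun w hw => ?_
  have hr : R M i < nrows n M := R_lt hi
  have e0 : hf M U V (cmp (ha M H h) (hb H U h)) (R M i) (5 * w) = 0 := by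
    unfold hf priv
    rw [s_T hH hr (show (5 * w) % 5 ≠ 2 by omega), s_T hH hr (show (5 * w + 1) % 5 ≠ 2 by omega),
      if_neg (by omega)]
    rfl
  have e3 : hf M U V (cmp (ha M H h) (hb H U h)) (R M i) (5 * w + 3) = 0 := by
    unfold hf priv
    rw [s_T hH hr (show (5 * w + 3) % 5 ≠ 2 by omega),
      s_T hH hr (show (5 * w + 3 + 1) % 5 ≠ 2 by omega), if_neg (by omega)]
    rfl
  have e4 : hf M U V (cmp (ha M H h) (hb H U h)) (R M i) (5 * w + 4) = 0 := by
    unfold hf priv
    rw [s_T hH hr (show (5 * w + 4) % 5 ≠ 2 by omega),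
      s_T hH hr (show (5 * w + 4 + 1) % 5 ≠ 2 by omega), if_neg (by omega)]
    rfl
  have e12 : hf M U V (cmp (ha M H h) (hb H U h)) (R M i) (5 * w + 1) +
      hf M U V (cmp (ha M H h) (hb H U h)) (R M i) (5 * w + 2) = cnt U V h i w := by
    unfold hf priv
    rw [s_T hH hr (show (5 * w + 1) % 5 ≠ 2 by omega), show 5 * w + 1 + 1 = 5 * w + 2 by ring,
      s_T hH hr (show (5 * w + 2 + 1) % 5 ≠ 2 by omega), s_node,
      if_pos (show (5 * w + 1) % 5 = 1 ∨ (5 * w + 1) % 5 = 2 by omega),
      if_pos (show (5 * w + 2) % 5 = 1 ∨ (5 * w + 2) % 5 = 2 by omega),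
      if_pos (mod_R M i), if_pos (mod_R M i), div_R, show (5 * w + 1) / 5 = w by omega,
      show (5 * w + 2) / 5 = w by omega, show (5 * w + 1) % 5 = 1 by omega,
      show (5 * w + 2) % 5 = 2 by omega]
    unfold cnt
    by_cases h1 : i = U w
    · simp [h1]
    · by_cases h2 : i = V w
      · subst h2
        rw [if_neg (Ne.symm h1), if_neg (Ne.symm h1), if_pos rfl, if_pos rfl, if_neg h1, if_pos rfl]
        by_cases h3 : h (V w) < h (U w)
        · simp [h3]
        · simp [h3]
          simp [Nat.le_of_not_lt h3]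
      · rw [if_neg (Ne.symm h1), if_neg (Ne.symm h1), if_neg (Ne.symm h2), if_neg (Ne.symm h2),
          if_neg h1, if_neg h2]
        by_cases h3 : h (U w) ≤ h i <;> simp [h3]
  omega

theorem sum_cnt (hU : ∀ w < m, U w < n) (hV : ∀ w < m, V w < n) (hne : ∀ w < m, U w ≠ V w)
    {w : ℕ} (hw : w < m) :
    (∑ i ∈ range n, cnt U V h i w) + 2 * (if h (V w) < h (U w) then 1 else 0) = n := by
  have key : ∑ i ∈ range n, (cnt U V h i w + (if i = U w then 1 else 0) +
      (if i = V w then 1 else 0)) = ∑ i ∈ range n, (1 + (if i = V w then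
        (if h (V w) < h (U w) then 0 else 2) else 0)) := by
    refine sum_congr rfl fun i _ => ?_
    unfold cnt
    by_cases h1 : i = U w
    · have h2 : i ≠ V w := by
        rw [h1]
        exact hne w hw
      simp only [if_pos h1, if_neg h2]
    · by_cases h2 : i = V w
      · simp only [if_neg h1, if_pos h2]
        ring
      · simp only [if_neg h1, if_neg h2]
  rw [sum_add_distrib, sum_add_distrib, sum_add_distrib, sum_const, card_range, sum_ite_eq',
    if_pos (mem_range.2 (hU w hw)), sum_ite_eq', if_pos (mem_range.2 (hV w hw)), sum_ite_eq',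
    if_pos (mem_range.2 (hV w hw))] at key
  simp only [smul_eq_mul] at key
  split_ifs at key ⊢ <;> omega

theorem HF_le (hH : ∀ i < n, h i ≤ H) (hU : ∀ w < m, U w < n) (hV : ∀ w < m, V w < n)
    (hne : ∀ w < m, U w ≠ V w) :
    HF n m M U V (cmp (ha M H h) (hb H U h)) +
      2 * ((range m).filter fun w => h (V w) < h (U w)).card ≤ n * m := by
  have h1 : HF n m M U V (cmp (ha M H h) (hb H U h)) ≤
      ∑ i ∈ range n, ∑ w ∈ range m, cnt U V h i w := by
    unfold HF
    have hsub : (range n).image (R M) ⊆ range (nrows n M) := by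
      intro r hr
      obtain ⟨i, hi, rfl⟩ := mem_image.1 hr
      exact mem_range.2 (R_lt (mem_range.1 hi))
    rw [← sum_subset hsub, sum_image fun i _ j _ h => R_inj M h]
    · exact sum_le_sum fun i hi => hf_node hH (mem_range.1 hi)
    · intro r hr hr'
      refine sum_eq_zero fun j hj => ?_
      rw [mem_range] at hr hj
      refine hf_pack hH hU hr ?_ (by omega)
      intro hm
      apply hr'
      refine mem_image.2 ⟨r / (M + 1), mem_range.2 (node_lt hr hm), ?_⟩
      unfold R
      have h1 := Nat.div_add_mod r (M + 1)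
      rw [hm, Nat.mul_comm] at h1
      exact h1
  rw [sum_comm] at h1
  have h2 : (∑ w ∈ range m, ∑ i ∈ range n, cnt U V h i w) +
      2 * ((range m).filter fun w => h (V w) < h (U w)).card = n * m := by
    rw [card_filter, mul_sum, ← sum_add_distrib]
    rw [sum_congr rfl fun w hw => sum_cnt hU hV hne (mem_range.1 hw), sum_const, card_range,
      smul_eq_mul, Nat.mul_comm]
  omega

theorem column (M : ℕ) (x : ℕ → Bool)
    (hx : ∀ r, r % (M + 1 + 1) ≠ M + 1 → x r = decide ((r / (M + 1 + 1)) % 2 = 0)) (k : ℕ) :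
    ∑ r ∈ range (k * (M + 1 + 1) + M), (x r ^^ x (r + 1)).toNat ≤ k := by
  have hpack : ∀ k a, a < M + 1 → x (k * (M + 1 + 1) + a) = decide (k % 2 = 0) := by
    intro k a ha
    have h1 : k * (M + 1 + 1) ≤ k * (M + 1 + 1) + a := Nat.le_add_right _ _
    have h2 : k * (M + 1 + 1) + a < k * (M + 1 + 1) + (M + 1) := by omega
    rw [hx _ (mod_pack h1 h2), div_pack h1 h2]
  have hzero : ∀ k, ∑ a ∈ range M, (x (k * (M + 1 + 1) + a) ^^ x (k * (M + 1 + 1) + a + 1)).toNat =
      0 := by
    intro k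
    refine sum_eq_zero fun a ha => ?_
    rw [mem_range] at ha
    rw [Nat.add_assoc (k * (M + 1 + 1)) a 1, hpack k a (by omega), hpack k (a + 1) (by omega)]
    simp
  induction k with
  | zero =>
    have := hzero 0
    simp only [zero_mul, zero_add] at this ⊢
    rw [this]
  | succ k ih =>
    have e : (k + 1) * (M + 1 + 1) + M = (k * (M + 1 + 1) + M + 1 + 1) + M := by ring
    rw [e, sum_range_add, sum_range_succ, sum_range_succ]
    have h1 := hzero (k + 1)
    have e2 : (k + 1) * (M + 1 + 1) = k * (M + 1 + 1) + M + 1 + 1 := by ring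
    rw [e2] at h1
    rw [h1]
    have h3 := hpack k M (by omega)
    have h4 := hpack (k + 1) 0 (by omega)
    rw [e2, add_zero] at h4
    have h5 : (x (k * (M + 1 + 1) + M) ^^ x (k * (M + 1 + 1) + M + 1)).toNat +
        (x (k * (M + 1 + 1) + M + 1) ^^ x (k * (M + 1 + 1) + M + 1 + 1)).toNat = 1 := by
      rw [h3, h4]
      rcases Nat.mod_two_eq_zero_or_one k with h | h
      · have h' : (k + 1) % 2 = 1 := by omega
        rw [h, h']
        cases x (k * (M + 1 + 1) + M + 1) <;> rfl
      · have h' : (k + 1) % 2 = 0 := by omega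
        rw [h, h']
        cases x (k * (M + 1 + 1) + M + 1) <;> rfl
    omega

theorem VF_le (hH : ∀ i < n, h i ≤ H) (hU : ∀ w < m, U w < n) (hM : 0 < M) :
    VF n m M (cmp (ha M H h) (hb H U h)) ≤ n * m := by
  unfold VF
  rw [sum_blocks]
  have hT : ∀ j, j % 5 ≠ 2 → ∑ r ∈ range (nrows n M - 1),
      vf (cmp (ha M H h) (hb H U h)) r j = 0 := by
    intro j hj
    refine sum_eq_zero fun r hr => ?_
    rw [mem_range] at hr
    unfold vf
    rw [s_T hH (by omega) hj, s_T hH (by omega) hj]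
    rfl
  have hW : ∀ w ∈ range m, ∑ r ∈ range (nrows n M - 1),
      vf (cmp (ha M H h) (hb H U h)) r (5 * w + 2) ≤ n := by
    intro w hw
    rw [mem_range] at hw
    obtain ⟨M, rfl⟩ : ∃ M', M = M' + 1 := ⟨M - 1, by omega⟩
    have := column M (fun r => cmp (ha (M + 1) H h) (hb H U h) r (5 * w + 2))
      (fun r hr => s_pack hH hU hr (by omega) (by omega)) n
    unfold nrows vf
    rw [show n * (M + 1 + 1) + (M + 1) - 1 = n * (M + 1 + 1) + M by omega]
    exact this
  calc _ = ∑ w ∈ range m, ∑ r ∈ range (nrows n M - 1),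
        vf (cmp (ha M H h) (hb H U h)) r (5 * w + 2) := by
        refine sum_congr rfl fun w _ => ?_
        rw [hT (5 * w) (by omega), hT (5 * w + 1) (by omega), hT (5 * w + 3) (by omega),
          hT (5 * w + 4) (by omega)]
        ring
    _ ≤ ∑ _w ∈ range m, n := sum_le_sum hW
    _ = n * m := by rw [sum_const, card_range, smul_eq_mul, Nat.mul_comm]

theorem achieve (hH : ∀ i < n, h i ≤ H) (hU : ∀ w < m, U w < n) (hV : ∀ w < m, V w < n)
    (hne : ∀ w < m, U w ≠ V w) (hM : 0 < M) :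
    HF n m M U V (cmp (ha M H h) (hb H U h)) + VF n m M (cmp (ha M H h) (hb H U h)) +
      2 * ((range m).filter fun w => h (V w) < h (U w)).card ≤ 2 * n * m := by
  have h1 := HF_le (M := M) hH hU hV hne
  have h2 := VF_le (M := M) hH hU hM
  have h3 : 2 * n * m = n * m + n * m := by ring
  omega

end Achieve

end Pool.Agent.R553.SW
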