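import Pool.Agent.R553.SW.Geo

/-!
# Counting the switches on an edge
-/

namespace Pool.Agent.R553.SW

open Finset

/-- is `e` the bridge at its crossing with `f`? -/
def bit (ρ : Seg → ℕ) (e f : Box) : Bool := decide (ρ (seg f) < ρ (seg e))

theorem count_aux (ρ : Seg → ℕ) (e f g : Box) :
    (({(f, g)} : Finset (Box × Box)).filter fun fg => ¬ (ρ (seg fg.1) < ρ (seg e) ↔
      ρ (seg fg.2) < ρ (seg e))).card = (bit ρ e f ^^ bit ρ e g).toNat := by
  unfold bit
  rw [filter_singleton]
  by_cases h1 : ρ (seg f) < ρ (seg e) <;> by_cases h2 : ρ (seg g) < ρ (seg e) <;> simp [h1, h2]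

theorem count {B : List Box} (hB : Reg B) {e : Box} (he : e ∈ B) (ρ : Seg → ℕ) (N : ℕ)
    (cc dd : ℕ → Box) (pr : ℕ → Bool)
    (hc : ∀ j ≤ N, cc j ∈ B ∧ BCross e (cc j) ∧ (cc j).c = 4 * j + 4)
    (hd : ∀ j < N, pr j = true → dd j ∈ B ∧ BCross e (dd j) ∧ (dd j).c = 4 * j + 6)
    (hall : ∀ f ∈ B, BCross e f → (∃ j ≤ N, f = cc j) ∨ (∃ j < N, pr j = true ∧ f = dd j)) :
    switches (B.map seg) ρ (seg e) = ∑ j ∈ range N, (if pr j then
      (bit ρ e (cc j) ^^ bit ρ e (dd j)).toNat + (bit ρ e (dd j) ^^ bit ρ e (cc (j + 1))).toNat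
      else (bit ρ e (cc j) ^^ bit ρ e (cc (j + 1))).toNat) := by
  rw [reg_switches hB he]
  let P : ℕ → Finset (Box × Box) := fun j => (if pr j then
    ({(cc j, dd j)} : Finset (Box × Box)) ∪ {(dd j, cc (j + 1))} else {(cc j, cc (j + 1))}).filter
      fun fg => ¬ (ρ (seg fg.1) < ρ (seg e) ↔ ρ (seg fg.2) < ρ (seg e))
  have hset : {fg : Box × Box | fg.1 ∈ B ∧ fg.2 ∈ B ∧
      BConsec B e fg.1 fg.2 ∧ ¬ (ρ (seg fg.1) < ρ (seg e) ↔ ρ (seg fg.2) < ρ (seg e))} =
      ↑((range N).biUnion P) := by
    ext ⟨f, g⟩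
    simp only [Set.mem_ofPred_eq, coe_biUnion, coe_range, Set.mem_Iio, Set.mem_iUnion, mem_coe, P,
      mem_filter, exists_prop]
    constructor
    · rintro ⟨hf, hg, ⟨h1, h2, h3, h4⟩, h5⟩
      rcases hall f hf h1 with ⟨j, hj, rfl⟩ | ⟨j, hj, hpj, rfl⟩
      · rcases hall g hg h2 with ⟨i, hi, rfl⟩ | ⟨i, hi, hpi, rfl⟩
        · rw [(hc j hj).2.2, (hc i hi).2.2] at h3
          have hij : i = j + 1 := by
            by_contra hne
            refine h4 ⟨cc (j + 1), (hc (j + 1) (by omega)).1, (hc (j + 1) (by omega)).2.1, ?_, ?_⟩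
            · rw [(hc j hj).2.2, (hc (j + 1) (by omega)).2.2]
              omega
            · rw [(hc i hi).2.2, (hc (j + 1) (by omega)).2.2]
              omega
          subst hij
          refine ⟨j, by omega, ?_, h5⟩
          rw [if_neg]
          · simp
          · intro hp
            have hd' := hd j (by omega) hp
            refine h4 ⟨dd j, hd'.1, hd'.2.1, ?_, ?_⟩
            · rw [(hc j hj).2.2, hd'.2.2]
              omega
            · rw [(hc (j + 1) hi).2.2, hd'.2.2]
              omega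
        · have hd' := hd i hi hpi
          rw [(hc j hj).2.2, hd'.2.2] at h3
          have hij : i = j := by
            by_contra hne
            refine h4 ⟨cc i, (hc i (by omega)).1, (hc i (by omega)).2.1, ?_, ?_⟩
            · rw [(hc j hj).2.2, (hc i (by omega)).2.2]
              omega
            · rw [hd'.2.2, (hc i (by omega)).2.2]
              omega
          subst hij
          refine ⟨i, hi, ?_, h5⟩
          rw [if_pos hpi]
          simp
      · have hdj := hd j hj hpj
        rcases hall g hg h2 with ⟨i, hi, rfl⟩ | ⟨i, hi, hpi, rfl⟩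
        · rw [(hc i hi).2.2, hdj.2.2] at h3
          have hij : i = j + 1 := by
            by_contra hne
            refine h4 ⟨cc (j + 1), (hc (j + 1) (by omega)).1, (hc (j + 1) (by omega)).2.1, ?_, ?_⟩
            · rw [hdj.2.2, (hc (j + 1) (by omega)).2.2]
              omega
            · rw [(hc i hi).2.2, (hc (j + 1) (by omega)).2.2]
              omega
          subst hij
          refine ⟨j, hj, ?_, h5⟩
          rw [if_pos hpj]
          simp
        · exfalso
          have hdi := hd i hi hpi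
          rw [hdi.2.2, hdj.2.2] at h3
          refine h4 ⟨cc (j + 1), (hc (j + 1) (by omega)).1, (hc (j + 1) (by omega)).2.1, ?_, ?_⟩
          · rw [hdj.2.2, (hc (j + 1) (by omega)).2.2]
            omega
          · rw [hdi.2.2, (hc (j + 1) (by omega)).2.2]
            omega
    · rintro ⟨j, hj, h1, h2⟩
      have hbetween : ∀ (f g : Box), (∀ i ≤ N, ¬ (f.c < 4 * i + 4 ∧ 4 * i + 4 < g.c)) →
          (∀ i < N, pr i = true → ¬ (f.c < 4 * i + 6 ∧ 4 * i + 6 < g.c)) →
          ¬ ∃ h ∈ B, BCross e h ∧ f.c < h.c ∧ h.c < g.c := by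
        rintro f g hA hB' ⟨h, hh, h3, h4, h5⟩
        rcases hall h hh h3 with ⟨i, hi, rfl⟩ | ⟨i, hi, hpi, rfl⟩
        · rw [(hc i hi).2.2] at h4 h5
          exact hA i hi ⟨h4, h5⟩
        · rw [(hd i hi hpi).2.2] at h4 h5
          exact hB' i hi hpi ⟨h4, h5⟩
      have hcj := hc j hj.le
      have hcj' := hc (j + 1) hj
      by_cases hp : pr j = true
      · rw [if_pos hp] at h1
        have hdj := hd j hj hp
        rw [mem_union, mem_singleton, mem_singleton] at h1
        rcases h1 with h1 | h1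
        · rw [Prod.mk.injEq] at h1
          obtain ⟨rfl, rfl⟩ := h1
          refine ⟨hcj.1, hdj.1, ⟨hcj.2.1, hdj.2.1, ?_, hbetween _ _ ?_ ?_⟩, h2⟩
          · rw [hcj.2.2, hdj.2.2]
            omega
          · intro i _
            rw [hcj.2.2, hdj.2.2]
            omega
          · intro i _ _
            rw [hcj.2.2, hdj.2.2]
            omega
        · rw [Prod.mk.injEq] at h1
          obtain ⟨rfl, rfl⟩ := h1
          refine ⟨hdj.1, hcj'.1, ⟨hdj.2.1, hcj'.2.1, ?_, hbetween _ _ ?_ ?_⟩, h2⟩
          · rw [hcj'.2.2, hdj.2.2]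
            omega
          · intro i _
            rw [hcj'.2.2, hdj.2.2]
            omega
          · intro i _ _
            rw [hcj'.2.2, hdj.2.2]
            omega
      · rw [if_neg hp, mem_singleton, Prod.mk.injEq] at h1
        obtain ⟨rfl, rfl⟩ := h1
        refine ⟨hcj.1, hcj'.1, ⟨hcj.2.1, hcj'.2.1, ?_, hbetween _ _ ?_ ?_⟩, h2⟩
        · rw [hcj.2.2, hcj'.2.2]
          omega
        · intro i _
          rw [hcj.2.2, hcj'.2.2]
          omega
        · intro i _ hpi hcon
          rw [hcj.2.2, hcj'.2.2] at hcon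
          have : i = j := by omega
          subst this
          exact hp hpi
  rw [hset, Set.ncard_coe_finset, card_biUnion]
  · refine sum_congr rfl fun j hj => ?_
    rw [mem_range] at hj
    simp only [P]
    by_cases hp : pr j = true
    · rw [if_pos hp, if_pos hp, filter_union, card_union_of_disjoint, count_aux, count_aux]
      rw [disjoint_left]
      intro x h1 h2
      have h3 := (mem_filter.1 h1).1
      have h4 := (mem_filter.1 h2).1
      rw [mem_singleton] at h3 h4
      rw [h3, Prod.mk.injEq] at h4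
      have h5 := (hc j hj.le).2.2
      rw [h4.1, (hd j hj hp).2.2] at h5
      omega
    · rw [if_neg hp, if_neg hp, count_aux]
  · intro i hi j hj hne
    rw [mem_coe, mem_range] at hi hj
    rw [Function.onFun, disjoint_left]
    have hfst : ∀ j < N, ∀ x ∈ P j, x.1.c = 4 * j + 4 ∨ x.1.c = 4 * j + 6 := by
      intro j hj x hx
      have h3 := (mem_filter.1 hx).1
      by_cases hp : pr j = true
      · rw [if_pos hp, mem_union, mem_singleton, mem_singleton] at h3
        rcases h3 with rfl | rfl
        · exact Or.inl (hc j hj.le).2.2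
        · exact Or.inr (hd j hj hp).2.2
      · rw [if_neg hp, mem_singleton] at h3
        rw [h3]
        exact Or.inl (hc j hj.le).2.2
    intro x h1 h2
    have h3 := hfst i hi x h1
    have h4 := hfst j hj x h2
    omega

/-- An edge with at most one crossing has no switches. -/
theorem count_zero {B : List Box} (hB : Reg B) {e : Box} (he : e ∈ B) (ρ : Seg → ℕ)
    (h : ∀ f ∈ B, ∀ g ∈ B, BCross e f → BCross e g → f.c = g.c) :
    switches (B.map seg) ρ (seg e) = 0 := by
  rw [reg_switches hB he]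
  have hset : {fg : Box × Box | fg.1 ∈ B ∧ fg.2 ∈ B ∧
      BConsec B e fg.1 fg.2 ∧ ¬ (ρ (seg fg.1) < ρ (seg e) ↔ ρ (seg fg.2) < ρ (seg e))} = ∅ := by
    ext ⟨f, g⟩
    simp only [Set.mem_ofPred_eq, Set.mem_empty_iff_false, iff_false]
    rintro ⟨hf, hg, ⟨h1, h2, h3, _⟩, _⟩
    have := h f hf g hg h1 h2
    omega
  rw [hset, Set.ncard_empty]

end Pool.Agent.R553.SW
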