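import Mathlib

/-!
# Switches in stacked edge casings: definitions

A drawing is a list of edges; the edge `e` is drawn as the straight segment from `e.1` to `e.2`.
-/

namespace Pool.Agent.R553.SW

/-- A vertex: a point with natural coordinates. -/
abbrev Pt : Type := ℕ × ℕ

/-- An edge, drawn as the segment from `e.1` to `e.2`. -/
abbrev Seg : Type := Pt × Pt

/-- A vertex as a point of the plane. -/
def toR (v : Pt) : ℝ × ℝ := ((v.1 : ℝ), (v.2 : ℝ))

/-- The point reached after the fraction `t` of the segment of `e`, starting in `e.1`. -/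
def pos (e : Seg) (t : ℝ) : ℝ × ℝ :=
  ((1 - t) * (e.1.1 : ℝ) + t * (e.2.1 : ℝ), (1 - t) * (e.1.2 : ℝ) + t * (e.2.2 : ℝ))

/-- The point `x` lies on the (closed) segment of `e`. -/
def On (e : Seg) (x : ℝ × ℝ) : Prop := ∃ t : ℝ, 0 ≤ t ∧ t ≤ 1 ∧ x = pos e t

/-- The point `v` is an endpoint of `e`. -/
def IsEnd (e : Seg) (v : Pt) : Prop := v = e.1 ∨ v = e.2

/-- The edges `e` and `f` cross: they have no endpoint in common and their segments meet. -/
def Cross (e f : Seg) : Prop := (∀ v, IsEnd e v → ¬ IsEnd f v) ∧ ∃ x, On e x ∧ On f x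

/-- Along `e` (from `e.1` to `e.2`), the crossing with `f` comes before the crossing with `g`. -/
def Before (e f g : Seg) : Prop :=
  ∃ s t : ℝ, 0 ≤ s ∧ s < t ∧ t ≤ 1 ∧ On f (pos e s) ∧ On g (pos e t)

/-- `E` is a drawing of a finite simple connected graph which satisfies the regularity
conditions. -/
structure IsDrawing (E : List Seg) : Prop where
  /-- no edge is listed twice -/
  nodup : E.Nodup
  /-- no loops -/
  loopless : ∀ e ∈ E, e.1 ≠ e.2
  /-- no parallel edges -/
  simple : ∀ e ∈ E, (e.2, e.1) ∉ E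
  /-- two edges have at most one point in common; so they cross at most once, and they do not cross
  if they share an endpoint -/
  once : ∀ e ∈ E, ∀ f ∈ E, e ≠ f → ∀ x y, On e x → On f x → On e y → On f y → x = y
  /-- no edge passes through a vertex other than its endpoints -/
  vertex : ∀ e ∈ E, ∀ f ∈ E, ∀ v, IsEnd f v → On e (toR v) → IsEnd e v
  /-- no three edges meet in one point which is not a vertex -/
  triple : ∀ e ∈ E, ∀ f ∈ E, ∀ g ∈ E, e ≠ f → e ≠ g → f ≠ g → ∀ x, On e x → On f x → On g x →
    ∃ v, IsEnd e v ∧ x = toR v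
  /-- the graph is connected -/
  conn : ∀ e ∈ E, ∀ f ∈ E, ∀ v w, IsEnd e v → IsEnd f w →
    Relation.ReflTransGen (fun a b => (a, b) ∈ E ∨ (b, a) ∈ E) v w

/-- The crossings of `e` with `f` and with `g` are consecutive along `e`, first `f` then `g`. -/
def Consec (E : List Seg) (e f g : Seg) : Prop :=
  Cross e f ∧ Cross e g ∧ Before e f g ∧ ¬ ∃ h ∈ E, Cross e h ∧ Before e f h ∧ Before e h g

/-- The number of switches on `e` if the edges are stacked by their heights `ρ` (`e` is the bridge
at its crossing with `f` if `ρ f < ρ e`): the number of pairs of consecutive crossings of `e`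
such that `e` is the bridge at exactly one of them. -/
noncomputable def switches (E : List Seg) (ρ : Seg → ℕ) (e : Seg) : ℕ :=
  Set.ncard {fg : Seg × Seg | fg.1 ∈ E ∧ fg.2 ∈ E ∧ Consec E e fg.1 fg.2 ∧
    ¬ (ρ fg.1 < ρ e ↔ ρ fg.2 < ρ e)}

/-- The total number of switches. -/
noncomputable def total (E : List Seg) (ρ : Seg → ℕ) : ℕ := (E.map (switches E ρ)).sum

/-- MaxTotalSwitches in the stacking model, as a decision problem: given a drawing `E` and `K`, is
there a linear order of the edges (given by different heights) whose casing has at least `K`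
switches? -/
def MaxTotalSwitches (I : List Seg × ℕ) : Prop :=
  IsDrawing I.1 ∧ ∃ ρ : Seg → ℕ, (∀ e ∈ I.1, ∀ f ∈ I.1, ρ e = ρ f → e = f) ∧
    I.2 ≤ total I.1 ρ

/-- The restriction to drawings on the grid with horizontal and vertical edges, and with
coordinates bounded by four times the number of edges. -/
def MaxTotalSwitchesGrid (I : List Seg × ℕ) : Prop :=
  (∀ e ∈ I.1, e.1.1 = e.2.1 ∨ e.1.2 = e.2.2) ∧
    (∀ e ∈ I.1, e.1.1 ≤ 4 * I.1.length ∧ e.1.2 ≤ 4 * I.1.length ∧
      e.2.1 ≤ 4 * I.1.length ∧ e.2.2 ≤ 4 * I.1.length) ∧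
    MaxTotalSwitches I

end Pool.Agent.R553.SW
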