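import Pool.Agent.R553.SW.Defs

/-!
# Drawings with horizontal and vertical segments
-/

namespace Pool.Agent.R553.SW

/-- A horizontal (or vertical) segment on the line with coordinate `c`, from `lo` to `hi`. -/
structure Box where
  /-- horizontal? -/
  hor : Bool
  /-- the common coordinate of its points -/
  c : ℕ
  /-- the smaller end -/
  lo : ℕ
  /-- the larger end -/
  hi : ℕ
  deriving DecidableEq

/-- the segment of a box -/
def seg (e : Box) : Seg := if e.hor then ((e.lo, e.c), (e.hi, e.c)) else ((e.c, e.lo), (e.c, e.hi))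

theorem seg_h {e : Box} (h : e.hor = true) : seg e = ((e.lo, e.c), (e.hi, e.c)) := by
  simp [seg, h]

theorem seg_v {e : Box} (h : e.hor = false) : seg e = ((e.c, e.lo), (e.c, e.hi)) := by
  simp [seg, h]

theorem seg_inj {e f : Box} (he : e.lo < e.hi) (hf : f.lo < f.hi) (h : seg e = seg f) : e = f := by
  obtain ⟨b, c, l, r⟩ := e
  obtain ⟨b', c', l', r'⟩ := f
  simp only at he hf
  cases b <;> cases b' <;> simp [seg] at h ⊢ <;> omega

theorem param {l r : ℕ} (h : l < r) (x : ℝ) (h1 : (l : ℝ) ≤ x) (h2 : x ≤ r) :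
    ∃ t : ℝ, 0 ≤ t ∧ t ≤ 1 ∧ x = (1 - t) * l + t * r := by
  have h' : (0 : ℝ) < (r : ℝ) - l := by
    have : (l : ℝ) < r := by exact_mod_cast h
    linarith
  refine ⟨(x - l) / (r - l), div_nonneg (by linarith) h'.le, ?_, ?_⟩
  · rw [div_le_one h']
    linarith
  · field_simp
    ring

theorem on_h {e : Box} (h : e.hor = true) (hl : e.lo < e.hi) (x : ℝ × ℝ) :
    On (seg e) x ↔ x.2 = e.c ∧ (e.lo : ℝ) ≤ x.1 ∧ x.1 ≤ e.hi := by
  have hl' : (e.lo : ℝ) < e.hi := by exact_mod_cast hl
  rw [seg_h h]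
  constructor
  · rintro ⟨t, h0, h1, rfl⟩
    simp only [pos]
    refine ⟨by ring, by nlinarith, by nlinarith⟩
  · rintro ⟨h1, h2, h3⟩
    obtain ⟨t, h4, h5, h6⟩ := param hl x.1 h2 h3
    refine ⟨t, h4, h5, ?_⟩
    simp only [pos]
    ext
    · exact h6
    · simp only [h1]
      ring

theorem on_v {e : Box} (h : e.hor = false) (hl : e.lo < e.hi) (x : ℝ × ℝ) :
    On (seg e) x ↔ x.1 = e.c ∧ (e.lo : ℝ) ≤ x.2 ∧ x.2 ≤ e.hi := by
  have hl' : (e.lo : ℝ) < e.hi := by exact_mod_cast hl
  rw [seg_v h]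
  constructor
  · rintro ⟨t, h0, h1, rfl⟩
    simp only [pos]
    refine ⟨by ring, by nlinarith, by nlinarith⟩
  · rintro ⟨h1, h2, h3⟩
    obtain ⟨t, h4, h5, h6⟩ := param hl x.2 h2 h3
    refine ⟨t, h4, h5, ?_⟩
    simp only [pos]
    ext
    · simp only [h1]
      ring
    · exact h6

theorem isEnd_h {e : Box} (h : e.hor = true) (v : Pt) :
    IsEnd (seg e) v ↔ v = (e.lo, e.c) ∨ v = (e.hi, e.c) := by
  rw [seg_h h]
  rfl

theorem isEnd_v {e : Box} (h : e.hor = false) (v : Pt) :
    IsEnd (seg e) v ↔ v = (e.c, e.lo) ∨ v = (e.c, e.hi) := by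
  rw [seg_v h]
  rfl

/-- The regularity conditions, in coordinates. -/
structure Reg (B : List Box) : Prop where
  nodup : B.Nodup
  lt : ∀ e ∈ B, e.lo < e.hi
  par : ∀ e ∈ B, ∀ f ∈ B, e ≠ f → e.hor = f.hor → e.c = f.c → e.hi ≤ f.lo ∨ f.hi ≤ e.lo
  perp : ∀ e ∈ B, ∀ f ∈ B, e.hor = true → f.hor = false → e.lo ≤ f.c → f.c ≤ e.hi → f.lo ≤ e.c →
    e.c ≤ f.hi → (e.lo < f.c ∧ f.c < e.hi ∧ f.lo < e.c ∧ e.c < f.hi) ∨
      ((f.c = e.lo ∨ f.c = e.hi) ∧ (e.c = f.lo ∨ e.c = f.hi))

/-- crossing, in coordinates -/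
def BCross (e f : Box) : Prop :=
  e.hor ≠ f.hor ∧ e.lo < f.c ∧ f.c < e.hi ∧ f.lo < e.c ∧ e.c < f.hi

section

variable {B : List Box} (hB : Reg B)

include hB

theorem par_end {e f : Box} (he : e ∈ B) (hf : f ∈ B) (hne : e ≠ f) (h : e.hor = f.hor)
    {x : ℝ × ℝ} (h1 : On (seg e) x) (h2 : On (seg f) x) :
    ∃ v, IsEnd (seg e) v ∧ IsEnd (seg f) v ∧ x = toR v := by
  cases hh : e.hor with
  | true =>
    have hh' : f.hor = true := by rw [← h, hh]
    rw [on_h hh (hB.lt e he)] at h1
    rw [on_h hh' (hB.lt f hf)] at h2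
    have hc : e.c = f.c := by
      have : (e.c : ℝ) = f.c := by rw [← h1.1, ← h2.1]
      exact_mod_cast this
    rcases hB.par e he f hf hne h hc with h3 | h3
    · have h4 : e.hi = f.lo := by
        have : (f.lo : ℝ) ≤ e.hi := h2.2.1.trans h1.2.2
        have : f.lo ≤ e.hi := by exact_mod_cast this
        omega
      refine ⟨(e.hi, e.c), (isEnd_h hh _).2 (Or.inr rfl), (isEnd_h hh' _).2 (Or.inl ?_), ?_⟩
      · rw [h4, hc]
      · ext
        · simp only [toR]
          refine le_antisymm h1.2.2 ?_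
          rw [h4]
          exact h2.2.1
        · exact h1.1
    · have h4 : f.hi = e.lo := by
        have : (e.lo : ℝ) ≤ f.hi := h1.2.1.trans h2.2.2
        have : e.lo ≤ f.hi := by exact_mod_cast this
        omega
      refine ⟨(e.lo, e.c), (isEnd_h hh _).2 (Or.inl rfl), (isEnd_h hh' _).2 (Or.inr ?_), ?_⟩
      · rw [h4, hc]
      · ext
        · simp only [toR]
          refine le_antisymm ?_ h1.2.1
          rw [← h4]
          exact h2.2.2
        · exact h1.1
  | false =>
    have hh' : f.hor = false := by rw [← h, hh]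
    rw [on_v hh (hB.lt e he)] at h1
    rw [on_v hh' (hB.lt f hf)] at h2
    have hc : e.c = f.c := by
      have : (e.c : ℝ) = f.c := by rw [← h1.1, ← h2.1]
      exact_mod_cast this
    rcases hB.par e he f hf hne h hc with h3 | h3
    · have h4 : e.hi = f.lo := by
        have : (f.lo : ℝ) ≤ e.hi := h2.2.1.trans h1.2.2
        have : f.lo ≤ e.hi := by exact_mod_cast this
        omega
      refine ⟨(e.c, e.hi), (isEnd_v hh _).2 (Or.inr rfl), (isEnd_v hh' _).2 (Or.inl ?_), ?_⟩
      · rw [h4, hc]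
      · ext
        · exact h1.1
        · simp only [toR]
          refine le_antisymm h1.2.2 ?_
          rw [h4]
          exact h2.2.1
    · have h4 : f.hi = e.lo := by
        have : (e.lo : ℝ) ≤ f.hi := h1.2.1.trans h2.2.2
        have : e.lo ≤ f.hi := by exact_mod_cast this
        omega
      refine ⟨(e.c, e.lo), (isEnd_v hh _).2 (Or.inl rfl), (isEnd_v hh' _).2 (Or.inr ?_), ?_⟩
      · rw [h4, hc]
      · ext
        · exact h1.1
        · simp only [toR]
          refine le_antisymm ?_ h1.2.1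
          rw [← h4]
          exact h2.2.2

theorem perp_pt {e f : Box} (he : e ∈ B) (hf : f ∈ B) (h : e.hor = true) (h' : f.hor = false)
    {x : ℝ × ℝ} (h1 : On (seg e) x) (h2 : On (seg f) x) :
    x = ((f.c : ℝ), (e.c : ℝ)) ∧ e.lo ≤ f.c ∧ f.c ≤ e.hi ∧ f.lo ≤ e.c ∧ e.c ≤ f.hi := by
  rw [on_h h (hB.lt e he)] at h1
  rw [on_v h' (hB.lt f hf)] at h2
  rw [h2.1] at h1
  rw [h1.1] at h2
  refine ⟨?_, ?_, ?_, ?_, ?_⟩
  · ext
    · exact h2.1
    · exact h1.1
  · exact_mod_cast h1.2.1
  · exact_mod_cast h1.2.2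
  · exact_mod_cast h2.2.1
  · exact_mod_cast h2.2.2

theorem reg_once {e f : Box} (he : e ∈ B) (hf : f ∈ B) (hne : e ≠ f) {x y : ℝ × ℝ}
    (h1 : On (seg e) x) (h2 : On (seg f) x) (h3 : On (seg e) y) (h4 : On (seg f) y) : x = y := by
  cases hh : e.hor <;> cases hh' : f.hor
  · have key : ∀ z, On (seg e) z → On (seg f) z → z = ((e.c : ℝ), if e.hi ≤ f.lo then (e.hi : ℝ)
        else (e.lo : ℝ)) := by
      intro z hz1 hz2
      rw [on_v hh (hB.lt e he)] at hz1
      rw [on_v hh' (hB.lt f hf)] at hz2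
      have hc : e.c = f.c := by
        have : (e.c : ℝ) = f.c := by rw [← hz1.1, ← hz2.1]
        exact_mod_cast this
      ext
      · exact hz1.1
      · rcases hB.par e he f hf hne (by rw [hh, hh']) hc with h5 | h5
        · simp only [if_pos h5]
          have : (e.hi : ℝ) ≤ f.lo := by exact_mod_cast h5
          linarith [hz1.2.2, hz2.2.1]
        · have h6 := hB.lt e he
          have h7 := hB.lt f hf
          simp only [if_neg (show ¬ e.hi ≤ f.lo by omega)]
          have : (f.hi : ℝ) ≤ e.lo := by exact_mod_cast h5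
          linarith [hz2.2.2, hz1.2.1]
    rw [key x h1 h2, key y h3 h4]
  · rw [(perp_pt hB hf he hh' hh h2 h1).1, (perp_pt hB hf he hh' hh h4 h3).1]
  · rw [(perp_pt hB he hf hh hh' h1 h2).1, (perp_pt hB he hf hh hh' h3 h4).1]
  · have key : ∀ z, On (seg e) z → On (seg f) z → z = ((if e.hi ≤ f.lo then (e.hi : ℝ)
        else (e.lo : ℝ)), (e.c : ℝ)) := by
      intro z hz1 hz2
      rw [on_h hh (hB.lt e he)] at hz1
      rw [on_h hh' (hB.lt f hf)] at hz2
      have hc : e.c = f.c := by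
        have : (e.c : ℝ) = f.c := by rw [← hz1.1, ← hz2.1]
        exact_mod_cast this
      ext
      · rcases hB.par e he f hf hne (by rw [hh, hh']) hc with h5 | h5
        · simp only [if_pos h5]
          have : (e.hi : ℝ) ≤ f.lo := by exact_mod_cast h5
          linarith [hz1.2.2, hz2.2.1]
        · have h6 := hB.lt e he
          have h7 := hB.lt f hf
          simp only [if_neg (show ¬ e.hi ≤ f.lo by omega)]
          have : (f.hi : ℝ) ≤ e.lo := by exact_mod_cast h5
          linarith [hz2.2.2, hz1.2.1]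
      · exact hz1.1
    rw [key x h1 h2, key y h3 h4]

theorem reg_vertex {e f : Box} (he : e ∈ B) (hf : f ∈ B) {v : Pt} (hv : IsEnd (seg f) v)
    (h : On (seg e) (toR v)) : IsEnd (seg e) v := by
  by_cases hne : e = f
  · rw [hne]
    exact hv
  have hv' : On (seg f) (toR v) := by
    have hlt := hB.lt f hf
    cases hh : f.hor
    · rw [isEnd_v hh] at hv
      rw [on_v hh hlt]
      rcases hv with rfl | rfl
      · exact ⟨rfl, le_rfl, by simp only [toR]; exact_mod_cast hlt.le⟩
      · exact ⟨rfl, by simp only [toR]; exact_mod_cast hlt.le, le_rfl⟩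
    · rw [isEnd_h hh] at hv
      rw [on_h hh hlt]
      rcases hv with rfl | rfl
      · exact ⟨rfl, le_rfl, by simp only [toR]; exact_mod_cast hlt.le⟩
      · exact ⟨rfl, by simp only [toR]; exact_mod_cast hlt.le, le_rfl⟩
  have toR_inj : ∀ v w : Pt, toR v = toR w → v = w := by
    intro v w h
    unfold toR at h
    rw [Prod.mk.injEq] at h
    ext
    · exact_mod_cast h.1
    · exact_mod_cast h.2
  by_cases hp : e.hor = f.hor
  · obtain ⟨w, h1, h2, h3⟩ := par_end hB he hf hne hp h hv'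
    rw [toR_inj _ _ h3]
    exact h1
  · cases hh : e.hor
    · have hh' : f.hor = true := by
        cases h' : f.hor
        · rw [hh, h'] at hp
          exact absurd rfl hp
        · rfl
      obtain ⟨h1, h2, h3, h4, h5⟩ := perp_pt hB hf he hh' hh hv' h
      have hv1 : v = (e.c, f.c) := toR_inj _ _ h1
      rw [isEnd_h hh'] at hv
      rw [isEnd_v hh]
      rw [hv1] at hv ⊢
      simp only [Prod.mk.injEq, and_true, true_and] at hv ⊢
      rcases hB.perp f hf e he hh' hh h2 h3 h4 h5 with h6 | h6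
      · omega
      · exact h6.2
    · have hh' : f.hor = false := by
        cases h' : f.hor
        · rfl
        · rw [hh, h'] at hp
          exact absurd rfl hp
      obtain ⟨h1, h2, h3, h4, h5⟩ := perp_pt hB he hf hh hh' h hv'
      have hv1 : v = (f.c, e.c) := toR_inj _ _ h1
      rw [isEnd_v hh'] at hv
      rw [isEnd_h hh]
      rw [hv1] at hv ⊢
      simp only [Prod.mk.injEq, and_true, true_and] at hv ⊢
      rcases hB.perp e he f hf hh hh' h2 h3 h4 h5 with h6 | h6
      · omega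
      · exact h6.1

theorem reg_triple {e f g : Box} (he : e ∈ B) (hf : f ∈ B) (hg : g ∈ B) (h1 : e ≠ f) (h2 : e ≠ g)
    (h3 : f ≠ g) {x : ℝ × ℝ} (h4 : On (seg e) x) (h5 : On (seg f) x) (h6 : On (seg g) x) :
    ∃ v, IsEnd (seg e) v ∧ x = toR v := by
  by_cases a : e.hor = f.hor
  · obtain ⟨v, hv, _, hx⟩ := par_end hB he hf h1 a h4 h5
    exact ⟨v, hv, hx⟩
  by_cases b : e.hor = g.hor
  · obtain ⟨v, hv, _, hx⟩ := par_end hB he hg h2 b h4 h6
    exact ⟨v, hv, hx⟩
  have c : f.hor = g.hor := by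
    cases h7 : e.hor <;> cases h8 : f.hor <;> cases h9 : g.hor <;> simp_all
  obtain ⟨v, hv, _, hx⟩ := par_end hB hf hg h3 c h5 h6
  exact ⟨v, reg_vertex hB he hf hv (hx ▸ h4), hx⟩

theorem reg_cross {e f : Box} (he : e ∈ B) (hf : f ∈ B) :
    Cross (seg e) (seg f) ↔ BCross e f := by
  constructor
  · rintro ⟨h1, x, h2, h3⟩
    have hne : e ≠ f := by
      rintro rfl
      exact h1 _ (Or.inl rfl) (Or.inl rfl)
    by_cases a : e.hor = f.hor
    · obtain ⟨v, hv, hv', _⟩ := par_end hB he hf hne a h2 h3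
      exact absurd hv' (h1 v hv)
    refine ⟨a, ?_⟩
    cases hh : e.hor
    · have hh' : f.hor = true := by
        cases h' : f.hor
        · rw [hh, h'] at a
          exact absurd rfl a
        · rfl
      obtain ⟨h5, h6, h7, h8, h9⟩ := perp_pt hB hf he hh' hh h3 h2
      rcases hB.perp f hf e he hh' hh h6 h7 h8 h9 with h10 | h10
      · omega
      · exfalso
        refine h1 (e.c, f.c) ?_ ?_
        · rw [isEnd_v hh]
          rcases h10.2 with h | h
          · exact Or.inl (by rw [h])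
          · exact Or.inr (by rw [h])
        · rw [isEnd_h hh']
          rcases h10.1 with h | h
          · exact Or.inl (by rw [h])
          · exact Or.inr (by rw [h])
    · have hh' : f.hor = false := by
        cases h' : f.hor
        · rfl
        · rw [hh, h'] at a
          exact absurd rfl a
      obtain ⟨h5, h6, h7, h8, h9⟩ := perp_pt hB he hf hh hh' h2 h3
      rcases hB.perp e he f hf hh hh' h6 h7 h8 h9 with h10 | h10
      · omega
      · exfalso
        refine h1 (f.c, e.c) ?_ ?_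
        · rw [isEnd_h hh]
          rcases h10.1 with h | h
          · exact Or.inl (by rw [h])
          · exact Or.inr (by rw [h])
        · rw [isEnd_v hh']
          rcases h10.2 with h | h
          · exact Or.inl (by rw [h])
          · exact Or.inr (by rw [h])
  · rintro ⟨h1, h2, h3, h4, h5⟩
    have c1 : (e.lo : ℝ) ≤ f.c := by exact_mod_cast h2.le
    have c2 : (f.c : ℝ) ≤ e.hi := by exact_mod_cast h3.le
    have c3 : (f.lo : ℝ) ≤ e.c := by exact_mod_cast h4.le
    have c4 : (e.c : ℝ) ≤ f.hi := by exact_mod_cast h5.le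
    cases hh : e.hor
    · have hh' : f.hor = true := by
        cases h' : f.hor
        · rw [hh, h'] at h1
          exact absurd rfl h1
        · rfl
      constructor
      · intro v hv hv'
        rw [isEnd_v hh] at hv
        rw [isEnd_h hh'] at hv'
        rcases hv with rfl | rfl <;> rcases hv' with h | h <;> rw [Prod.mk.injEq] at h <;> omega
      · refine ⟨((e.c : ℝ), (f.c : ℝ)), ?_, ?_⟩
        · rw [on_v hh (hB.lt e he)]
          exact ⟨rfl, c1, c2⟩
        · rw [on_h hh' (hB.lt f hf)]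
          exact ⟨rfl, c3, c4⟩
    · have hh' : f.hor = false := by
        cases h' : f.hor
        · rfl
        · rw [hh, h'] at h1
          exact absurd rfl h1
      constructor
      · intro v hv hv'
        rw [isEnd_h hh] at hv
        rw [isEnd_v hh'] at hv'
        rcases hv with rfl | rfl <;> rcases hv' with h | h <;> rw [Prod.mk.injEq] at h <;> omega
      · refine ⟨((f.c : ℝ), (e.c : ℝ)), ?_, ?_⟩
        · rw [on_h hh (hB.lt e he)]
          exact ⟨rfl, c1, c2⟩
        · rw [on_v hh' (hB.lt f hf)]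
          exact ⟨rfl, c3, c4⟩

theorem reg_before {e f g : Box} (he : e ∈ B) (hf : f ∈ B) (hg : g ∈ B) (h1 : BCross e f)
    (h2 : BCross e g) : Before (seg e) (seg f) (seg g) ↔ f.c < g.c := by
  have hlt : (e.lo : ℝ) < e.hi := by exact_mod_cast hB.lt e he
  have c1 : (e.lo : ℝ) ≤ f.c := by exact_mod_cast h1.2.1.le
  have c2 : (f.c : ℝ) ≤ e.hi := by exact_mod_cast h1.2.2.1.le
  have c3 : (f.lo : ℝ) ≤ e.c := by exact_mod_cast h1.2.2.2.1.le
  have c4 : (e.c : ℝ) ≤ f.hi := by exact_mod_cast h1.2.2.2.2.le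
  have d1 : (e.lo : ℝ) ≤ g.c := by exact_mod_cast h2.2.1.le
  have d2 : (g.c : ℝ) ≤ e.hi := by exact_mod_cast h2.2.2.1.le
  have d3 : (g.lo : ℝ) ≤ e.c := by exact_mod_cast h2.2.2.2.1.le
  have d4 : (e.c : ℝ) ≤ g.hi := by exact_mod_cast h2.2.2.2.2.le
  cases hh : e.hor
  · have hf' : f.hor = true := by
      have := h1.1
      cases h' : f.hor
      · rw [hh, h'] at this
        exact absurd rfl this
      · rfl
    have hg' : g.hor = true := by
      have := h2.1
      cases h' : g.hor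
      · rw [hh, h'] at this
        exact absurd rfl this
      · rfl
    constructor
    · rintro ⟨s, t, hs, hst, ht, h3, h4⟩
      rw [on_h hf' (hB.lt f hf), seg_v hh] at h3
      rw [on_h hg' (hB.lt g hg), seg_v hh] at h4
      simp only [pos] at h3 h4
      have : (f.c : ℝ) < g.c := by
        rw [← h3.1, ← h4.1]
        nlinarith
      exact_mod_cast this
    · intro h3
      have h3' : (f.c : ℝ) < g.c := by exact_mod_cast h3
      obtain ⟨s, hs0, hs1, hs⟩ := param (hB.lt e he) f.c c1 c2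
      obtain ⟨t, ht0, ht1, ht⟩ := param (hB.lt e he) g.c d1 d2
      refine ⟨s, t, hs0, ?_, ht1, ?_, ?_⟩
      · rw [hs, ht] at h3'
        by_contra hcon
        push Not at hcon
        nlinarith
      · rw [on_h hf' (hB.lt f hf), seg_v hh]
        simp only [pos]
        refine ⟨hs.symm, ?_, ?_⟩ <;> nlinarith
      · rw [on_h hg' (hB.lt g hg), seg_v hh]
        simp only [pos]
        refine ⟨ht.symm, ?_, ?_⟩ <;> nlinarith
  · have hf' : f.hor = false := by
      have := h1.1
      cases h' : f.hor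
      · rfl
      · rw [hh, h'] at this
        exact absurd rfl this
    have hg' : g.hor = false := by
      have := h2.1
      cases h' : g.hor
      · rfl
      · rw [hh, h'] at this
        exact absurd rfl this
    constructor
    · rintro ⟨s, t, hs, hst, ht, h3, h4⟩
      rw [on_v hf' (hB.lt f hf), seg_h hh] at h3
      rw [on_v hg' (hB.lt g hg), seg_h hh] at h4
      simp only [pos] at h3 h4
      have : (f.c : ℝ) < g.c := by
        rw [← h3.1, ← h4.1]
        nlinarith
      exact_mod_cast this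
    · intro h3
      have h3' : (f.c : ℝ) < g.c := by exact_mod_cast h3
      obtain ⟨s, hs0, hs1, hs⟩ := param (hB.lt e he) f.c c1 c2
      obtain ⟨t, ht0, ht1, ht⟩ := param (hB.lt e he) g.c d1 d2
      refine ⟨s, t, hs0, ?_, ht1, ?_, ?_⟩
      · rw [hs, ht] at h3'
        by_contra hcon
        push Not at hcon
        nlinarith
      · rw [on_v hf' (hB.lt f hf), seg_h hh]
        simp only [pos]
        refine ⟨hs.symm, ?_, ?_⟩ <;> nlinarith
      · rw [on_v hg' (hB.lt g hg), seg_h hh]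
        simp only [pos]
        refine ⟨ht.symm, ?_, ?_⟩ <;> nlinarith

theorem isDrawing_of_reg (hconn : ∀ e ∈ B.map seg, ∀ f ∈ B.map seg, ∀ v w, IsEnd e v → IsEnd f w →
    Relation.ReflTransGen (fun a b => (a, b) ∈ B.map seg ∨ (b, a) ∈ B.map seg) v w) :
    IsDrawing (B.map seg) := by
  refine ⟨?_, ?_, ?_, ?_, ?_, ?_, hconn⟩
  · exact hB.nodup.map_on fun e he f hf h => seg_inj (hB.lt e he) (hB.lt f hf) h
  · intro e he
    obtain ⟨a, ha, rfl⟩ := List.mem_map.1 he
    have := hB.lt a ha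
    cases hh : a.hor
    · rw [seg_v hh]
      simp
      omega
    · rw [seg_h hh]
      simp
      omega
  · intro e he he'
    obtain ⟨a, ha, rfl⟩ := List.mem_map.1 he
    obtain ⟨b, hb, hab⟩ := List.mem_map.1 he'
    have h1 := hB.lt a ha
    have h2 := hB.lt b hb
    cases hh : a.hor <;> cases hh' : b.hor <;>
      simp only [seg, hh, hh', if_true, if_false, Prod.mk.injEq, Bool.false_eq_true] at hab <;>
      omega
  · intro e he f hf hne x y h1 h2 h3 h4
    obtain ⟨a, ha, rfl⟩ := List.mem_map.1 he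
    obtain ⟨b, hb, rfl⟩ := List.mem_map.1 hf
    exact reg_once hB ha hb (fun h => hne (by rw [h])) h1 h2 h3 h4
  · intro e he f hf v hv h
    obtain ⟨a, ha, rfl⟩ := List.mem_map.1 he
    obtain ⟨b, hb, rfl⟩ := List.mem_map.1 hf
    exact reg_vertex hB ha hb hv h
  · intro e he f hf g hg h1 h2 h3 x h4 h5 h6
    obtain ⟨a, ha, rfl⟩ := List.mem_map.1 he
    obtain ⟨b, hb, rfl⟩ := List.mem_map.1 hf
    obtain ⟨c, hc, rfl⟩ := List.mem_map.1 hg
    exact reg_triple hB ha hb hc (fun h => h1 (by rw [h])) (fun h => h2 (by rw [h]))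
      (fun h => h3 (by rw [h])) h4 h5 h6

/-- consecutive crossings, in coordinates -/
def BConsec (B : List Box) (e f g : Box) : Prop :=
  BCross e f ∧ BCross e g ∧ f.c < g.c ∧ ¬ ∃ h ∈ B, BCross e h ∧ f.c < h.c ∧ h.c < g.c

theorem reg_consec {e f g : Box} (he : e ∈ B) (hf : f ∈ B) (hg : g ∈ B) :
    Consec (B.map seg) (seg e) (seg f) (seg g) ↔ BConsec B e f g := by
  unfold Consec BConsec
  rw [reg_cross hB he hf, reg_cross hB he hg]
  constructor
  · rintro ⟨h1, h2, h3, h4⟩
    refine ⟨h1, h2, (reg_before hB he hf hg h1 h2).1 h3, ?_⟩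
    rintro ⟨h, hh, h5, h6, h7⟩
    exact h4 ⟨seg h, List.mem_map_of_mem hh, (reg_cross hB he hh).2 h5,
      (reg_before hB he hf hh h1 h5).2 h6, (reg_before hB he hh hg h5 h2).2 h7⟩
  · rintro ⟨h1, h2, h3, h4⟩
    refine ⟨h1, h2, (reg_before hB he hf hg h1 h2).2 h3, ?_⟩
    rintro ⟨h, hh, h5, h6, h7⟩
    obtain ⟨k, hk, rfl⟩ := List.mem_map.1 hh
    have h5' := (reg_cross hB he hk).1 h5
    exact h4 ⟨k, hk, h5', (reg_before hB he hf hk h1 h5').1 h6,
      (reg_before hB he hk hg h5' h2).1 h7⟩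

/-- The number of switches, in terms of boxes. -/
theorem reg_switches {e : Box} (he : e ∈ B) (ρ : Seg → ℕ) :
    switches (B.map seg) ρ (seg e) = Set.ncard {fg : Box × Box | fg.1 ∈ B ∧ fg.2 ∈ B ∧
      BConsec B e fg.1 fg.2 ∧ ¬ (ρ (seg fg.1) < ρ (seg e) ↔ ρ (seg fg.2) < ρ (seg e))} := by
  unfold switches
  rw [← Set.InjOn.ncard_image (f := fun fg : Box × Box => (seg fg.1, seg fg.2))]
  · congr 1
    ext ⟨f, g⟩
    simp only [Set.mem_ofPred_eq, Set.mem_image, Prod.mk.injEq, Prod.exists]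
    constructor
    · rintro ⟨hf, hg, h1, h2⟩
      obtain ⟨a, ha, rfl⟩ := List.mem_map.1 hf
      obtain ⟨b, hb, rfl⟩ := List.mem_map.1 hg
      exact ⟨a, b, ⟨ha, hb, (reg_consec hB he ha hb).1 h1, h2⟩, rfl, rfl⟩
    · rintro ⟨a, b, ⟨ha, hb, h1, h2⟩, rfl, rfl⟩
      exact ⟨List.mem_map_of_mem ha, List.mem_map_of_mem hb, (reg_consec hB he ha hb).2 h1, h2⟩
  · rintro ⟨f, g⟩ hfg ⟨f', g'⟩ hfg' h
    simp only [Prod.mk.injEq] at h ⊢
    exact ⟨seg_inj (hB.lt _ hfg.1) (hB.lt _ hfg'.1) h.1,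
      seg_inj (hB.lt _ hfg.2.1) (hB.lt _ hfg'.2.1) h.2⟩

end

end Pool.Agent.R553.SW
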