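import Pool.Agent.R553.SW.Count
import Pool.Agent.R553.SW.Comb

/-!
# The grid drawing
-/

namespace Pool.Agent.R553.SW

open Finset

/-- row `r` -/
def row (q r : ℕ) : Box := ⟨true, 4 * r + 4, 2, 4 * q + 2⟩
/-- column `j` -/
def col (p j : ℕ) : Box := ⟨false, 4 * j + 4, 2, 4 * p + 2⟩
/-- the private edge of row `r` between the columns `j` and `j + 1` -/
def nu (r j : ℕ) : Box := ⟨false, 4 * j + 6, 4 * r + 2, 4 * r + 6⟩
/-- the private edge of column `j` between the rows `r` and `r + 1` -/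
def eta (j r : ℕ) : Box := ⟨true, 4 * r + 6, 4 * j + 2, 4 * j + 6⟩
/-- the path on the left -/
def lp (y : ℕ) : Box := ⟨false, 2, 2 * y + 2, 2 * y + 4⟩
/-- the path at the bottom -/
def bp (x : ℕ) : Box := ⟨true, 2, 2 * x + 2, 2 * x + 4⟩

/-- The edges of the drawing. -/
def boxes (p q : ℕ) (pr : ℕ → ℕ → Bool) : List Box :=
  (List.range p).map (row q) ++ ((List.range q).map (col p) ++
    ((List.range p).flatMap (fun r => ((List.range (q - 1)).filter (pr r)).map (nu r)) ++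
      ((List.range q).flatMap (fun j => (List.range (p - 1)).map (eta j)) ++
        ((List.range (2 * p - 1)).map lp ++ (List.range (2 * q)).map bp))))

theorem mem_boxes {p q : ℕ} {pr : ℕ → ℕ → Bool} {e : Box} : e ∈ boxes p q pr ↔
    (∃ r < p, e = row q r) ∨ (∃ j < q, e = col p j) ∨
    (∃ r < p, ∃ j < q - 1, pr r j = true ∧ e = nu r j) ∨ (∃ j < q, ∃ r < p - 1, e = eta j r) ∨
    (∃ y < 2 * p - 1, e = lp y) ∨ (∃ x < 2 * q, e = bp x) := by
  unfold boxes
  simp only [List.mem_append, List.mem_map, List.mem_range, List.mem_flatMap, List.mem_filter,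
    eq_comm (a := e), and_assoc]

theorem reg_boxes {p q : ℕ} (hp : 0 < p) (hq : 0 < q) (pr : ℕ → ℕ → Bool) :
    Reg (boxes p q pr) := by
  refine ⟨?_, ?_, ?_, ?_⟩
  · unfold boxes
    rw [List.nodup_append', List.nodup_append', List.nodup_append', List.nodup_append',
      List.nodup_append']
    refine ⟨?_, ⟨?_, ⟨?_, ⟨?_, ⟨?_, ?_, ?_⟩, ?_⟩, ?_⟩, ?_⟩, ?_⟩
    · refine List.nodup_range.map fun a b h => ?_
      simp only [row, Box.mk.injEq] at h
      omega
    · refine List.nodup_range.map fun a b h => ?_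
      simp only [col, Box.mk.injEq] at h
      omega
    · rw [List.nodup_flatMap]
      refine ⟨fun r _ => (List.nodup_range.filter _).map fun a b h => ?_, ?_⟩
      · simp only [nu, Box.mk.injEq] at h
        omega
      · refine List.nodup_range.pairwise_of_forall_ne ?_
        intro a _ b _ hab
        rw [Function.onFun, List.disjoint_left]
        intro x hx hx'
        simp only [List.mem_map, List.mem_filter, List.mem_range] at hx hx'
        obtain ⟨i, _, rfl⟩ := hx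
        obtain ⟨j, _, h⟩ := hx'
        simp only [nu, Box.mk.injEq] at h
        omega
    · rw [List.nodup_flatMap]
      refine ⟨fun r _ => List.nodup_range.map fun a b h => ?_, ?_⟩
      · simp only [eta, Box.mk.injEq] at h
        omega
      · refine List.nodup_range.pairwise_of_forall_ne ?_
        intro a _ b _ hab
        rw [Function.onFun, List.disjoint_left]
        intro x hx hx'
        simp only [List.mem_map, List.mem_range] at hx hx'
        obtain ⟨i, _, rfl⟩ := hx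
        obtain ⟨j, _, h⟩ := hx'
        simp only [eta, Box.mk.injEq] at h
        omega
    · refine List.nodup_range.map fun a b h => ?_
      simp only [lp, Box.mk.injEq] at h
      omega
    · refine List.nodup_range.map fun a b h => ?_
      simp only [bp, Box.mk.injEq] at h
      omega
    · rw [List.disjoint_left]
      intro x hx hx'
      simp only [List.mem_map, List.mem_range] at hx hx'
      obtain ⟨a, _, rfl⟩ := hx
      obtain ⟨b, _, h⟩ := hx'
      simp [lp, bp] at h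
    all_goals
      rw [List.disjoint_left]
      intro x hx hx'
      simp only [List.mem_append, List.mem_map, List.mem_range, List.mem_flatMap,
        List.mem_filter] at hx hx'
    · obtain ⟨a, _, b, _, rfl⟩ := hx
      rcases hx' with ⟨c, _, h⟩ | ⟨c, _, h⟩
      · simp [eta, lp] at h
      · simp only [eta, bp, Box.mk.injEq] at h
        omega
    · obtain ⟨a, _, b, _, rfl⟩ := hx
      rcases hx' with ⟨c, _, d, _, h⟩ | ⟨c, _, h⟩ | ⟨c, _, h⟩
      · simp [eta, nu] at h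
      · simp only [nu, lp, Box.mk.injEq] at h
        omega
      · simp [nu, bp] at h
    · obtain ⟨a, _, rfl⟩ := hx
      rcases hx' with ⟨c, _, d, _, h⟩ | ⟨c, _, d, _, h⟩ | ⟨c, _, h⟩ | ⟨c, _, h⟩
      · simp only [nu, col, Box.mk.injEq] at h
        omega
      · simp [eta, col] at h
      · simp only [col, lp, Box.mk.injEq] at h
        omega
      · simp [col, bp] at h
    · obtain ⟨a, _, rfl⟩ := hx
      rcases hx' with ⟨c, _, h⟩ | ⟨c, _, d, _, h⟩ | ⟨c, _, d, _, h⟩ | ⟨c, _, h⟩ | ⟨c, _, h⟩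
      · simp [row, col] at h
      · simp [row, nu] at h
      · simp only [row, eta, Box.mk.injEq] at h
        omega
      · simp [row, lp] at h
      · simp only [row, bp, Box.mk.injEq] at h
        omega
  · intro e he
    rw [mem_boxes] at he
    rcases he with ⟨r, hr, rfl⟩ | ⟨j, hj, rfl⟩ | ⟨r, hr, j, hj, hpr, rfl⟩ | ⟨j, hj, r, hr, rfl⟩ |
      ⟨y, hy, rfl⟩ | ⟨x, hx, rfl⟩ <;> simp only [row, col, nu, eta, lp, bp] <;> omega
  · intro e he f hf hne
    rw [mem_boxes] at he hf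
    rcases he with ⟨r, hr, rfl⟩ | ⟨j, hj, rfl⟩ | ⟨r, hr, j, hj, hpr, rfl⟩ | ⟨j, hj, r, hr, rfl⟩ |
      ⟨y, hy, rfl⟩ | ⟨x, hx, rfl⟩ <;>
    rcases hf with ⟨r', hr', rfl⟩ | ⟨j', hj', rfl⟩ | ⟨r', hr', j', hj', hpr', rfl⟩ |
      ⟨j', hj', r', hr', rfl⟩ | ⟨y', hy', rfl⟩ | ⟨x', hx', rfl⟩ <;>
    simp only [row, col, nu, eta, lp, bp, Box.mk.injEq, ne_eq, true_and, and_true,
      Bool.true_eq_false, Bool.false_eq_true, true_imp_iff, IsEmpty.forall_iff] at hne ⊢ <;> omega
  · intro e he f hf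
    rw [mem_boxes] at he hf
    rcases he with ⟨r, hr, rfl⟩ | ⟨j, hj, rfl⟩ | ⟨r, hr, j, hj, hpr, rfl⟩ | ⟨j, hj, r, hr, rfl⟩ |
      ⟨y, hy, rfl⟩ | ⟨x, hx, rfl⟩ <;>
    rcases hf with ⟨r', hr', rfl⟩ | ⟨j', hj', rfl⟩ | ⟨r', hr', j', hj', hpr', rfl⟩ |
      ⟨j', hj', r', hr', rfl⟩ | ⟨y', hy', rfl⟩ | ⟨x', hx', rfl⟩ <;>
    simp only [row, col, nu, eta, lp, bp, Bool.true_eq_false, Bool.false_eq_true, true_imp_iff,
      IsEmpty.forall_iff, true_or, true_and, and_true] <;> omega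

/-! ### Crossings -/

theorem cross_row {p q r : ℕ} {pr : ℕ → ℕ → Bool} {f : Box} (hf : f ∈ boxes p q pr)
    (h : BCross (row q r) f) : (∃ j < q, f = col p j) ∨ (∃ j < q - 1, pr r j = true ∧ f = nu r j) := by
  rw [mem_boxes] at hf
  rcases hf with ⟨r', hr', rfl⟩ | ⟨j', hj', rfl⟩ | ⟨r', hr', j', hj', hpr', rfl⟩ |
    ⟨j', hj', r', hr', rfl⟩ | ⟨y', hy', rfl⟩ | ⟨x', hx', rfl⟩ <;>
  simp only [BCross, row, col, nu, eta, lp, bp, ne_eq, not_true_eq_false, false_and] at h
  · exact Or.inl ⟨j', hj', rfl⟩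
  · have : r' = r := by omega
    subst this
    exact Or.inr ⟨j', hj', hpr', rfl⟩
  · omega

theorem cross_col {p q j : ℕ} {pr : ℕ → ℕ → Bool} {f : Box} (hf : f ∈ boxes p q pr)
    (h : BCross (col p j) f) : (∃ r < p, f = row q r) ∨ (∃ r < p - 1, f = eta j r) := by
  rw [mem_boxes] at hf
  rcases hf with ⟨r', hr', rfl⟩ | ⟨j', hj', rfl⟩ | ⟨r', hr', j', hj', hpr', rfl⟩ |
    ⟨j', hj', r', hr', rfl⟩ | ⟨y', hy', rfl⟩ | ⟨x', hx', rfl⟩ <;>
  simp only [BCross, row, col, nu, eta, lp, bp, ne_eq, not_true_eq_false, false_and] at h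
  · exact Or.inl ⟨r', hr', rfl⟩
  · have : j' = j := by omega
    subst this
    exact Or.inr ⟨r', hr', rfl⟩
  · omega

theorem cross_nu {p q r j : ℕ} {pr : ℕ → ℕ → Bool} {f : Box} (hf : f ∈ boxes p q pr)
    (h : BCross (nu r j) f) : f.c = 4 * r + 4 := by
  rw [mem_boxes] at hf
  rcases hf with ⟨r', hr', rfl⟩ | ⟨j', hj', rfl⟩ | ⟨r', hr', j', hj', hpr', rfl⟩ |
    ⟨j', hj', r', hr', rfl⟩ | ⟨y', hy', rfl⟩ | ⟨x', hx', rfl⟩ <;>
  simp only [BCross, row, col, nu, eta, lp, bp, ne_eq, not_true_eq_false, false_and] at h ⊢ <;>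
  omega

theorem cross_eta {p q r j : ℕ} {pr : ℕ → ℕ → Bool} {f : Box} (hf : f ∈ boxes p q pr)
    (h : BCross (eta j r) f) : f.c = 4 * j + 4 := by
  rw [mem_boxes] at hf
  rcases hf with ⟨r', hr', rfl⟩ | ⟨j', hj', rfl⟩ | ⟨r', hr', j', hj', hpr', rfl⟩ |
    ⟨j', hj', r', hr', rfl⟩ | ⟨y', hy', rfl⟩ | ⟨x', hx', rfl⟩ <;>
  simp only [BCross, row, col, nu, eta, lp, bp, ne_eq, not_true_eq_false, false_and] at h ⊢ <;>
  omega

theorem cross_lp {p q y : ℕ} {pr : ℕ → ℕ → Bool} {f : Box} (hf : f ∈ boxes p q pr) :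
    ¬ BCross (lp y) f := by
  intro h
  rw [mem_boxes] at hf
  rcases hf with ⟨r', hr', rfl⟩ | ⟨j', hj', rfl⟩ | ⟨r', hr', j', hj', hpr', rfl⟩ |
    ⟨j', hj', r', hr', rfl⟩ | ⟨y', hy', rfl⟩ | ⟨x', hx', rfl⟩ <;>
  simp only [BCross, row, col, nu, eta, lp, bp, ne_eq, not_true_eq_false, false_and] at h <;>
  omega

theorem cross_bp {p q x : ℕ} {pr : ℕ → ℕ → Bool} {f : Box} (hf : f ∈ boxes p q pr) :
    ¬ BCross (bp x) f := by
  intro h
  rw [mem_boxes] at hf
  rcases hf with ⟨r', hr', rfl⟩ | ⟨j', hj', rfl⟩ | ⟨r', hr', j', hj', hpr', rfl⟩ |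
    ⟨j', hj', r', hr', rfl⟩ | ⟨y', hy', rfl⟩ | ⟨x', hx', rfl⟩ <;>
  simp only [BCross, row, col, nu, eta, lp, bp, ne_eq, not_true_eq_false, false_and] at h <;>
  omega

theorem bcross_row_col {p q r j : ℕ} (hr : r < p) (hj : j < q) : BCross (row q r) (col p j) := by
  refine ⟨by simp [row, col], ?_⟩
  simp only [row, col]
  omega

theorem bcross_col_row {p q r j : ℕ} (hr : r < p) (hj : j < q) : BCross (col p j) (row q r) := by
  refine ⟨by simp [row, col], ?_⟩
  simp only [row, col]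
  omega

theorem switches_row {p q : ℕ} (hp : 0 < p) (hq : 0 < q) (pr : ℕ → ℕ → Bool) (ρ : Seg → ℕ) {r : ℕ}
    (hr : r < p) : switches ((boxes p q pr).map seg) ρ (seg (row q r)) =
    ∑ j ∈ range (q - 1), (if pr r j then
      (bit ρ (row q r) (col p j) ^^ bit ρ (row q r) (nu r j)).toNat +
        (bit ρ (row q r) (nu r j) ^^ bit ρ (row q r) (col p (j + 1))).toNat
      else (bit ρ (row q r) (col p j) ^^ bit ρ (row q r) (col p (j + 1))).toNat) := by
  refine count (reg_boxes hp hq pr) (mem_boxes.2 (Or.inl ⟨r, hr, rfl⟩)) ρ (q - 1) (col p) (nu r)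
    (pr r) ?_ ?_ ?_
  · intro j hj
    exact ⟨mem_boxes.2 (Or.inr (Or.inl ⟨j, by omega, rfl⟩)), bcross_row_col hr (by omega), rfl⟩
  · intro j hj hpr
    refine ⟨mem_boxes.2 (Or.inr (Or.inr (Or.inl ⟨r, hr, j, hj, hpr, rfl⟩))), ?_, rfl⟩
    refine ⟨by simp [row, nu], ?_⟩
    simp only [row, nu]
    omega
  · intro f hf hcr
    rcases cross_row hf hcr with ⟨j, hj, h⟩ | ⟨j, hj, hpr, h⟩
    · exact Or.inl ⟨j, by omega, h⟩
    · exact Or.inr ⟨j, hj, hpr, h⟩

theorem switches_col {p q : ℕ} (hp : 0 < p) (hq : 0 < q) (pr : ℕ → ℕ → Bool) (ρ : Seg → ℕ) {j : ℕ}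
    (hj : j < q) : switches ((boxes p q pr).map seg) ρ (seg (col p j)) =
    ∑ r ∈ range (p - 1), (
      (bit ρ (col p j) (row q r) ^^ bit ρ (col p j) (eta j r)).toNat +
        (bit ρ (col p j) (eta j r) ^^ bit ρ (col p j) (row q (r + 1))).toNat) := by
  rw [count (reg_boxes hp hq pr) (mem_boxes.2 (Or.inr (Or.inl ⟨j, hj, rfl⟩))) ρ (p - 1) (row q)
    (eta j) (fun _ => true) ?_ ?_ ?_]
  · simp only [if_true]
  · intro r hr
    exact ⟨mem_boxes.2 (Or.inl ⟨r, by omega, rfl⟩), bcross_col_row (by omega) hj, rfl⟩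
  · intro r hr _
    refine ⟨mem_boxes.2 (Or.inr (Or.inr (Or.inr (Or.inl ⟨j, hj, r, hr, rfl⟩)))), ?_, rfl⟩
    refine ⟨by simp [col, eta], ?_⟩
    simp only [col, eta]
    omega
  · intro f hf hcr
    rcases cross_col hf hcr with ⟨r, hr, h⟩ | ⟨r, hr, h⟩
    · exact Or.inl ⟨r, by omega, h⟩
    · exact Or.inr ⟨r, hr, rfl, h⟩

theorem sum_map_range (f : ℕ → ℕ) (n : ℕ) : ((List.range n).map f).sum = ∑ i ∈ range n, f i := by
  rw [Finset.sum_range]
  induction n with
  | zero => simp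
  | succ n ih => rw [List.range_succ, List.map_append, List.sum_append, ih, Fin.sum_univ_castSucc]; simp

theorem total_boxes {p q : ℕ} (hp : 0 < p) (hq : 0 < q) (pr : ℕ → ℕ → Bool) (ρ : Seg → ℕ) :
    total ((boxes p q pr).map seg) ρ =
      ∑ r ∈ range p, switches ((boxes p q pr).map seg) ρ (seg (row q r)) +
      ∑ j ∈ range q, switches ((boxes p q pr).map seg) ρ (seg (col p j)) := by
  have hB := reg_boxes hp hq pr
  unfold total
  rw [List.map_map]
  set F := switches ((boxes p q pr).map seg) ρ ∘ seg with hF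
  have h0 : ∀ L : List Box, (∀ e ∈ L, F e = 0) → (L.map F).sum = 0 := by
    intro L hL
    rw [List.sum_eq_zero]
    intro x hx
    obtain ⟨e, he, rfl⟩ := List.mem_map.1 hx
    exact hL e he
  have hnu : ∀ e ∈ (List.range p).flatMap (fun r => ((List.range (q - 1)).filter (pr r)).map (nu r)),
      F e = 0 := by
    intro e he
    simp only [List.mem_flatMap, List.mem_map, List.mem_filter, List.mem_range] at he
    obtain ⟨r, hr, j, ⟨hj, hpr⟩, rfl⟩ := he
    refine count_zero hB (mem_boxes.2 (Or.inr (Or.inr (Or.inl ⟨r, hr, j, hj, hpr, rfl⟩)))) ρ ?_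
    intro f hf g hg h1 h2
    rw [cross_nu hf h1, cross_nu hg h2]
  have heta : ∀ e ∈ (List.range q).flatMap (fun j => (List.range (p - 1)).map (eta j)),
      F e = 0 := by
    intro e he
    simp only [List.mem_flatMap, List.mem_map, List.mem_range] at he
    obtain ⟨j, hj, r, hr, rfl⟩ := he
    refine count_zero hB (mem_boxes.2 (Or.inr (Or.inr (Or.inr (Or.inl ⟨j, hj, r, hr, rfl⟩))))) ρ ?_
    intro f hf g hg h1 h2
    rw [cross_eta hf h1, cross_eta hg h2]
  have hlp : ∀ e ∈ (List.range (2 * p - 1)).map lp, F e = 0 := by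
    intro e he
    simp only [List.mem_map, List.mem_range] at he
    obtain ⟨y, hy, rfl⟩ := he
    refine count_zero hB (mem_boxes.2 (Or.inr (Or.inr (Or.inr (Or.inr (Or.inl ⟨y, hy, rfl⟩)))))) ρ ?_
    intro f hf g hg h1 h2
    exact absurd h1 (cross_lp hf)
  have hbp : ∀ e ∈ (List.range (2 * q)).map bp, F e = 0 := by
    intro e he
    simp only [List.mem_map, List.mem_range] at he
    obtain ⟨x, hx, rfl⟩ := he
    refine count_zero hB (mem_boxes.2 (Or.inr (Or.inr (Or.inr (Or.inr (Or.inr ⟨x, hx, rfl⟩)))))) ρ ?_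
    intro f hf g hg h1 h2
    exact absurd h1 (cross_bp hf)
  rw [show ((boxes p q pr).map F).sum = _ from by
    rw [boxes, List.map_append, List.map_append, List.map_append, List.map_append, List.map_append,
      List.sum_append, List.sum_append, List.sum_append, List.sum_append, List.sum_append,
      h0 _ hnu, h0 _ heta, h0 _ hlp, h0 _ hbp, List.map_map, List.map_map, sum_map_range,
      sum_map_range]]
  simp [hF]

end Pool.Agent.R553.SW
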