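import Pool.Agent.R553.SW.Grid

/-!
# The grid drawing encodes the order problem
-/

namespace Pool.Agent.R553.SW

open Finset

/-- The number of portions of rows, those with a private edge counted twice. -/
def CC (p q : ℕ) (pr : ℕ → ℕ → Bool) : ℕ :=
  (∑ r ∈ range p, ∑ j ∈ range (q - 1), if pr r j then 2 else 1) + 2 * (q * (p - 1))

/-- failures along rows, general form -/
def HFg (p q : ℕ) (pr : ℕ → ℕ → Bool) (s : ℕ → ℕ → Bool) : ℕ :=
  ∑ r ∈ range p, ∑ j ∈ range (q - 1), ((s r j ^^ s r (j + 1)) == pr r j).toNat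

/-- failures along columns, general form -/
def VFg (p q : ℕ) (s : ℕ → ℕ → Bool) : ℕ :=
  ∑ j ∈ range q, ∑ r ∈ range (p - 1), (s r j ^^ s (r + 1) j).toNat

theorem CC_eq (p q : ℕ) (pr : ℕ → ℕ → Bool) : CC p q pr =
    (∑ r ∈ range p, ∑ j ∈ range (q - 1), if pr r j then 2 else 1) +
      ∑ _j ∈ range q, ∑ _r ∈ range (p - 1), 2 := by
  unfold CC
  simp only [sum_const, card_range, smul_eq_mul]
  ring

theorem bit_row_col (ρ : Seg → ℕ) (p q r j : ℕ) : bit ρ (row q r) (col p j) =
    cmp (fun r => ρ (seg (row q r))) (fun j => ρ (seg (col p j))) r j := rfl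

theorem bit_col_row {ρ : Seg → ℕ} {p q r j : ℕ}
    (h : ρ (seg (row q r)) ≠ ρ (seg (col p j))) : bit ρ (col p j) (row q r) =
    !cmp (fun r => ρ (seg (row q r))) (fun j => ρ (seg (col p j))) r j := by
  unfold bit cmp
  rw [← decide_not]
  congr 1
  apply propext
  show ρ (seg (row q r)) < ρ (seg (col p j)) ↔ ¬ ρ (seg (col p j)) < ρ (seg (row q r))
  omega

theorem upper {p q : ℕ} (hp : 0 < p) (hq : 0 < q) (pr : ℕ → ℕ → Bool) (ρ : Seg → ℕ)
    (hρ : ∀ e ∈ (boxes p q pr).map seg, ∀ f ∈ (boxes p q pr).map seg, ρ e = ρ f → e = f) :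
    total ((boxes p q pr).map seg) ρ +
      HFg p q pr (cmp (fun r => ρ (seg (row q r))) (fun j => ρ (seg (col p j)))) +
      VFg p q (cmp (fun r => ρ (seg (row q r))) (fun j => ρ (seg (col p j)))) ≤ CC p q pr := by
  have hne : ∀ r < p, ∀ j < q, ρ (seg (row q r)) ≠ ρ (seg (col p j)) := by
    intro r hr j hj h
    have h1 : row q r ∈ boxes p q pr := mem_boxes.2 (Or.inl ⟨r, hr, rfl⟩)
    have h2 : col p j ∈ boxes p q pr := mem_boxes.2 (Or.inr (Or.inl ⟨j, hj, rfl⟩))
    have h3 := hρ _ (List.mem_map_of_mem h1) _ (List.mem_map_of_mem h2) h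
    have hB := reg_boxes hp hq pr
    have h4 := seg_inj (hB.lt _ h1) (hB.lt _ h2) h3
    simp [row, col] at h4
  rw [total_boxes hp hq, CC_eq]
  set s := cmp (fun r => ρ (seg (row q r))) (fun j => ρ (seg (col p j))) with hs
  have h1 : ∑ r ∈ range p, switches ((boxes p q pr).map seg) ρ (seg (row q r)) + HFg p q pr s ≤
      ∑ r ∈ range p, ∑ j ∈ range (q - 1), if pr r j then 2 else 1 := by
    unfold HFg
    rw [← sum_add_distrib]
    refine sum_le_sum fun r hr => ?_
    rw [mem_range] at hr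
    rw [switches_row hp hq pr ρ hr, ← sum_add_distrib]
    refine sum_le_sum fun j hj => ?_
    rw [bit_row_col, bit_row_col, ← hs]
    generalize bit ρ (row q r) (nu r j) = x
    cases pr r j <;> cases x <;> cases s r j <;> cases s r (j + 1) <;> decide
  have h2 : ∑ j ∈ range q, switches ((boxes p q pr).map seg) ρ (seg (col p j)) + VFg p q s ≤
      ∑ _j ∈ range q, ∑ _r ∈ range (p - 1), 2 := by
    unfold VFg
    rw [← sum_add_distrib]
    refine sum_le_sum fun j hj => ?_
    rw [mem_range] at hj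
    rw [switches_col hp hq pr ρ hj, ← sum_add_distrib]
    refine sum_le_sum fun r hr => ?_
    rw [mem_range] at hr
    rw [bit_col_row (hne r (by omega) j hj), bit_col_row (hne (r + 1) (by omega) j hj), ← hs]
    generalize bit ρ (col p j) (eta j r) = x
    cases x <;> cases s r j <;> cases s (r + 1) j <;> decide
  omega

/-- Any heights can be made different without changing strict inequalities. -/
theorem exists_inj (E : List Seg) (key : Seg → ℕ) : ∃ ρ : Seg → ℕ,
    (∀ e ∈ E, ∀ f ∈ E, ρ e = ρ f → e = f) ∧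
      ∀ e ∈ E, ∀ f ∈ E, key e < key f → ρ e < ρ f := by
  classical
  refine ⟨fun e => E.length * key e + E.idxOf e, ?_, ?_⟩
  · intro e he f hf h
    have h1 := List.idxOf_lt_length_of_mem he
    have h2 := List.idxOf_lt_length_of_mem hf
    have h3 : E.idxOf e = E.idxOf f := by
      have := congrArg (· % E.length) h
      simpa [Nat.add_comm, Nat.add_mul_mod_self_left, Nat.mod_eq_of_lt h1, Nat.mod_eq_of_lt h2]
        using this
    exact (List.idxOf_inj he).1 h3
  · intro e he f hf h
    have h1 := List.idxOf_lt_length_of_mem he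
    have h2 : E.length * (key e + 1) ≤ E.length * key f := Nat.mul_le_mul_left _ h
    simp only
    rw [Nat.mul_add, Nat.mul_one] at h2
    omega

/-- The heights of all edges, for given heights `a`, `b` of the rows and columns: private edges are
at the top or at the bottom. -/
def keyOf (a b : ℕ → ℕ) (T : ℕ) (e : Seg) : ℕ :=
  if e.1.2 = e.2.2 then
    (if e.1.2 % 4 = 0 then a (e.1.2 / 4 - 1) + 1
      else if cmp a b ((e.1.2 - 6) / 4) ((e.1.1 - 2) / 4) then 0 else T)
  else
    (if e.1.1 % 4 = 0 then b (e.1.1 / 4 - 1) + 1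
      else if cmp a b ((e.1.2 - 2) / 4) ((e.1.1 - 6) / 4) then T else 0)

theorem key_row (a b : ℕ → ℕ) (T q r : ℕ) : keyOf a b T (seg (row q r)) = a r + 1 := by
  unfold keyOf seg row
  simp only [if_true]
  rw [if_pos (by omega)]
  congr 2
  omega

theorem key_col (a b : ℕ → ℕ) {T p j : ℕ} (hp : 0 < p) : keyOf a b T (seg (col p j)) = b j + 1 := by
  unfold keyOf seg col
  simp only [Bool.false_eq_true, if_false]
  rw [if_neg (by omega), if_pos (by omega)]
  congr 2
  omega

theorem key_nu (a b : ℕ → ℕ) (T r j : ℕ) :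
    keyOf a b T (seg (nu r j)) = if cmp a b r j then T else 0 := by
  unfold keyOf seg nu
  simp only [Bool.false_eq_true, if_false]
  rw [if_neg (by omega), if_neg (by omega), show (4 * r + 2 - 2) / 4 = r by omega,
    show (4 * j + 6 - 6) / 4 = j by omega]

theorem key_eta (a b : ℕ → ℕ) (T r j : ℕ) :
    keyOf a b T (seg (eta j r)) = if cmp a b r j then 0 else T := by
  unfold keyOf seg eta
  simp only [if_true]
  rw [if_neg (by omega), show (4 * r + 6 - 6) / 4 = r by omega,
    show (4 * j + 2 - 2) / 4 = j by omega]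

theorem attain {p q : ℕ} (hp : 0 < p) (hq : 0 < q) (pr : ℕ → ℕ → Bool) (a b : ℕ → ℕ)
    (hab : ∀ r < p, ∀ j < q, a r ≠ b j) : ∃ ρ : Seg → ℕ,
    (∀ e ∈ (boxes p q pr).map seg, ∀ f ∈ (boxes p q pr).map seg, ρ e = ρ f → e = f) ∧
    total ((boxes p q pr).map seg) ρ + HFg p q pr (cmp a b) + VFg p q (cmp a b) =
      CC p q pr := by
  obtain ⟨T, hTa, hTb⟩ : ∃ T, (∀ r < p, a r + 1 < T) ∧ ∀ j < q, b j + 1 < T := by
    refine ⟨(∑ r ∈ range p, a r) + (∑ j ∈ range q, b j) + 2, ?_, ?_⟩
    · intro r hr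
      have := single_le_sum (f := a) (fun _ _ => Nat.zero_le _) (mem_range.2 hr)
      omega
    · intro j hj
      have := single_le_sum (f := b) (fun _ _ => Nat.zero_le _) (mem_range.2 hj)
      omega
  obtain ⟨ρ, h1, h2⟩ := exists_inj ((boxes p q pr).map seg) (keyOf a b T)
  refine ⟨ρ, h1, ?_⟩
  have mrow : ∀ r < p, seg (row q r) ∈ (boxes p q pr).map seg := fun r hr =>
    List.mem_map_of_mem (mem_boxes.2 (Or.inl ⟨r, hr, rfl⟩))
  have mcol : ∀ j < q, seg (col p j) ∈ (boxes p q pr).map seg := fun j hj =>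
    List.mem_map_of_mem (mem_boxes.2 (Or.inr (Or.inl ⟨j, hj, rfl⟩)))
  have bitk : ∀ e f : Box, seg e ∈ (boxes p q pr).map seg → seg f ∈ (boxes p q pr).map seg →
      keyOf a b T (seg e) ≠ keyOf a b T (seg f) →
      bit ρ e f = decide (keyOf a b T (seg f) < keyOf a b T (seg e)) := by
    intro e f he hf hne
    unfold bit
    congr 1
    apply propext
    constructor
    · intro h
      by_contra hcon
      have := h2 _ he _ hf (by omega)
      omega
    · exact h2 _ hf _ he
  have brc : ∀ r < p, ∀ j < q, bit ρ (row q r) (col p j) = cmp a b r j := by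
    intro r hr j hj
    have := hab r hr j hj
    rw [bitk _ _ (mrow r hr) (mcol j hj), key_row, key_col a b hp]
    · unfold cmp
      congr 1
      apply propext
      omega
    · rw [key_row, key_col a b hp]
      omega
  have bcr : ∀ r < p, ∀ j < q, bit ρ (col p j) (row q r) = !cmp a b r j := by
    intro r hr j hj
    have := hab r hr j hj
    rw [bitk _ _ (mcol j hj) (mrow r hr), key_row, key_col a b hp]
    · unfold cmp
      rw [← decide_not]
      congr 1
      apply propext
      omega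
    · rw [key_row, key_col a b hp]
      omega
  have brn : ∀ r < p, ∀ j < q - 1, pr r j = true → bit ρ (row q r) (nu r j) = !cmp a b r j := by
    intro r hr j hj hpr
    have hm : seg (nu r j) ∈ (boxes p q pr).map seg :=
      List.mem_map_of_mem (mem_boxes.2 (Or.inr (Or.inr (Or.inl ⟨r, hr, j, hj, hpr, rfl⟩))))
    have hT := hTa r hr
    rw [bitk _ _ (mrow r hr) hm, key_row, key_nu]
    · cases cmp a b r j
      · simp
      · simp
        omega
    · rw [key_row, key_nu]
      cases cmp a b r j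
      · simp
      · simp
        omega
  have bce : ∀ r < p - 1, ∀ j < q, bit ρ (col p j) (eta j r) = cmp a b r j := by
    intro r hr j hj
    have hm : seg (eta j r) ∈ (boxes p q pr).map seg :=
      List.mem_map_of_mem (mem_boxes.2 (Or.inr (Or.inr (Or.inr (Or.inl ⟨j, hj, r, hr, rfl⟩)))))
    have hT := hTb j hj
    rw [bitk _ _ (mcol j hj) hm, key_col a b hp, key_eta]
    · cases cmp a b r j
      · simp
        omega
      · simp
    · rw [key_col a b hp, key_eta]
      cases cmp a b r j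
      · simp
        omega
      · simp
  rw [total_boxes hp hq, CC_eq]
  have e1 : ∑ r ∈ range p, switches ((boxes p q pr).map seg) ρ (seg (row q r)) +
      HFg p q pr (cmp a b) =
      ∑ r ∈ range p, ∑ j ∈ range (q - 1), if pr r j then 2 else 1 := by
    unfold HFg
    rw [← sum_add_distrib]
    refine sum_congr rfl fun r hr => ?_
    rw [mem_range] at hr
    rw [switches_row hp hq pr ρ hr, ← sum_add_distrib]
    refine sum_congr rfl fun j hj => ?_
    rw [mem_range] at hj
    rw [brc r hr j (by omega), brc r hr (j + 1) (by omega)]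
    by_cases hpr : pr r j = true
    · rw [if_pos hpr, if_pos hpr, brn r hr j hj hpr, hpr]
      cases cmp a b r j <;> cases cmp a b r (j + 1) <;> decide
    · rw [if_neg hpr, if_neg hpr, Bool.not_eq_true] at *
      rw [hpr]
      cases cmp a b r j <;> cases cmp a b r (j + 1) <;> decide
  have e2 : ∑ j ∈ range q, switches ((boxes p q pr).map seg) ρ (seg (col p j)) +
      VFg p q (cmp a b) = ∑ _j ∈ range q, ∑ _r ∈ range (p - 1), 2 := by
    unfold VFg
    rw [← sum_add_distrib]
    refine sum_congr rfl fun j hj => ?_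
    rw [mem_range] at hj
    rw [switches_col hp hq pr ρ hj, ← sum_add_distrib]
    refine sum_congr rfl fun r hr => ?_
    rw [mem_range] at hr
    rw [bcr r (by omega) j hj, bcr (r + 1) (by omega) j hj, bce r hr j hj]
    cases cmp a b r j <;> cases cmp a b (r + 1) j <;> decide
  omega

/-! ### Connectivity -/

section conn

variable {p q : ℕ} {pr : ℕ → ℕ → Bool}

/-- adjacency -/
def Adj (p q : ℕ) (pr : ℕ → ℕ → Bool) (a b : Pt) : Prop :=
  (a, b) ∈ (boxes p q pr).map seg ∨ (b, a) ∈ (boxes p q pr).map seg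

theorem adj_symm {a b : Pt} (h : Adj p q pr a b) : Adj p q pr b a := Or.symm h

theorem reach_symm {v w : Pt} (h : Relation.ReflTransGen (Adj p q pr) v w) :
    Relation.ReflTransGen (Adj p q pr) w v := by
  induction h with
  | refl => exact Relation.ReflTransGen.refl
  | tail _ hbc ih => exact (Relation.ReflTransGen.single (adj_symm hbc)).trans ih

theorem adj_box {e : Box} (he : e ∈ boxes p q pr) {v w : Pt} (hv : IsEnd (seg e) v)
    (hw : IsEnd (seg e) w) : Relation.ReflTransGen (Adj p q pr) v w := by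
  have h : seg e ∈ (boxes p q pr).map seg := List.mem_map_of_mem he
  have h' : ((seg e).1, (seg e).2) ∈ (boxes p q pr).map seg := h
  rcases hv with rfl | rfl <;> rcases hw with rfl | rfl
  · exact Relation.ReflTransGen.refl
  · exact Relation.ReflTransGen.single (Or.inl h')
  · exact Relation.ReflTransGen.single (Or.inr h')
  · exact Relation.ReflTransGen.refl

theorem reach_lp {y : ℕ} (hy : y < 2 * p) :
    Relation.ReflTransGen (Adj p q pr) (2, 2) (2, 2 * y + 2) := by
  induction y with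
  | zero => exact Relation.ReflTransGen.refl
  | succ y ih =>
    refine (ih (by omega)).trans (adj_box (e := lp y) (mem_boxes.2 (Or.inr (Or.inr (Or.inr
      (Or.inr (Or.inl ⟨y, by omega, rfl⟩)))))) ?_ ?_)
    · exact Or.inl rfl
    · exact Or.inr rfl

theorem reach_bp {x : ℕ} (hx : x ≤ 2 * q) :
    Relation.ReflTransGen (Adj p q pr) (2, 2) (2 * x + 2, 2) := by
  induction x with
  | zero => exact Relation.ReflTransGen.refl
  | succ x ih =>
    refine (ih (by omega)).trans (adj_box (e := bp x) (mem_boxes.2 (Or.inr (Or.inr (Or.inr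
      (Or.inr (Or.inr ⟨x, by omega, rfl⟩)))))) ?_ ?_)
    · exact Or.inl rfl
    · exact Or.inr rfl

theorem reach_eta {r j : ℕ} (hr : r < p - 1) (hj : j ≤ q) :
    Relation.ReflTransGen (Adj p q pr) (2, 2) (4 * j + 2, 4 * r + 6) := by
  induction j with
  | zero =>
    have := reach_lp (q := q) (pr := pr) (show 2 * r + 2 < 2 * p by omega)
    rwa [show 2 * (2 * r + 2) + 2 = 4 * r + 6 by ring] at this
  | succ j ih =>
    refine (ih (by omega)).trans (adj_box (e := eta j r) (mem_boxes.2 (Or.inr (Or.inr (Or.inr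
      (Or.inl ⟨j, by omega, r, hr, rfl⟩))))) ?_ ?_)
    · exact Or.inl rfl
    · exact Or.inr rfl

theorem reach {e : Box} (he : e ∈ boxes p q pr) {v : Pt} (hv : IsEnd (seg e) v) :
    Relation.ReflTransGen (Adj p q pr) (2, 2) v := by
  have key : ∃ w, IsEnd (seg e) w ∧ Relation.ReflTransGen (Adj p q pr) (2, 2) w := by
    have he' := he
    rw [mem_boxes] at he
    rcases he with ⟨r, hr, rfl⟩ | ⟨j, hj, rfl⟩ | ⟨r, hr, j, hj, hpr, rfl⟩ | ⟨j, hj, r, hr, rfl⟩ |
      ⟨y, hy, rfl⟩ | ⟨x, hx, rfl⟩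
    · refine ⟨_, Or.inl rfl, ?_⟩
      have := reach_lp (q := q) (pr := pr) (show 2 * r + 1 < 2 * p by omega)
      rwa [show 2 * (2 * r + 1) + 2 = 4 * r + 4 by ring] at this
    · refine ⟨_, Or.inl rfl, ?_⟩
      have := reach_bp (p := p) (pr := pr) (show 2 * j + 1 ≤ 2 * q by omega)
      rwa [show 2 * (2 * j + 1) + 2 = 4 * j + 4 by ring] at this
    · refine ⟨_, Or.inl rfl, ?_⟩
      rcases r with _ | r
      · have := reach_bp (p := p) (pr := pr) (show 2 * j + 2 ≤ 2 * q by omega)
        rwa [show 2 * (2 * j + 2) + 2 = 4 * j + 6 by ring] at this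
      · exact reach_eta (r := r) (j := j + 1) (by omega) (by omega)
    · exact ⟨_, Or.inl rfl, reach_eta hr hj.le⟩
    · exact ⟨_, Or.inl rfl, reach_lp (by omega)⟩
    · exact ⟨_, Or.inl rfl, reach_bp (by omega)⟩
  obtain ⟨w, hw, h⟩ := key
  exact h.trans (adj_box he hw hv)

theorem isDrawing_boxes (hp : 0 < p) (hq : 0 < q) : IsDrawing ((boxes p q pr).map seg) := by
  refine isDrawing_of_reg (reg_boxes hp hq pr) ?_
  intro e he f hf v w hv hw
  obtain ⟨a, ha, rfl⟩ := List.mem_map.1 he
  obtain ⟨b, hb, rfl⟩ := List.mem_map.1 hf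
  have h1 : Relation.ReflTransGen (Adj p q pr) (2, 2) v := reach ha hv
  have h2 : Relation.ReflTransGen (Adj p q pr) (2, 2) w := reach hb hw
  exact (reach_symm h1).trans h2

theorem axis_boxes : ∀ e ∈ (boxes p q pr).map seg, e.1.1 = e.2.1 ∨ e.1.2 = e.2.2 := by
  intro e he
  obtain ⟨a, _, rfl⟩ := List.mem_map.1 he
  cases h : a.hor
  · rw [seg_v h]
    exact Or.inl rfl
  · rw [seg_h h]
    exact Or.inr rfl

theorem coord_boxes (hp : 0 < p) (hq : 0 < q) : ∀ e ∈ (boxes p q pr).map seg,
    e.1.1 ≤ 4 * ((boxes p q pr).map seg).length ∧ e.1.2 ≤ 4 * ((boxes p q pr).map seg).length ∧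
      e.2.1 ≤ 4 * ((boxes p q pr).map seg).length ∧
      e.2.2 ≤ 4 * ((boxes p q pr).map seg).length := by
  have hlen : p + q + (2 * p - 1) + 2 * q ≤ ((boxes p q pr).map seg).length := by
    rw [List.length_map]
    unfold boxes
    simp only [List.length_append, List.length_map, List.length_range]
    omega
  intro e he
  obtain ⟨a, ha, rfl⟩ := List.mem_map.1 he
  rw [mem_boxes] at ha
  rcases ha with ⟨r, hr, rfl⟩ | ⟨j, hj, rfl⟩ | ⟨r, hr, j, hj, hpr, rfl⟩ | ⟨j, hj, r, hr, rfl⟩ |
      ⟨y, hy, rfl⟩ | ⟨x, hx, rfl⟩ <;>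
  simp only [seg, row, col, nu, eta, lp, bp, if_true, if_false, Bool.false_eq_true] <;> omega

end conn

/-! ### The two directions -/

theorem drawing_mp {n m M k : ℕ} {U V : ℕ → ℕ} (hm : 0 < m) (hU : ∀ w < m, U w < n)
    (hV : ∀ w < m, V w < n) (hne : ∀ w < m, U w ≠ V w) (hM : 2 * n * m < M)
    (h : MaxTotalSwitchesGrid ((boxes (nrows n M) (5 * m) (priv M U V)).map seg,
      CC (nrows n M) (5 * m) (priv M U V) + 2 * k - 2 * n * m)) :
    ∃ h : ℕ → ℤ, k ≤ ((range m).filter fun w => h (V w) < h (U w)).card := by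
  obtain ⟨_, _, _, ρ, hρ, hK⟩ := h
  have hp : 0 < nrows n M := by
    unfold nrows
    omega
  have hq : 0 < 5 * m := by omega
  simp only at hρ hK
  have h1 := upper hp hq (priv M U V) ρ hρ
  obtain ⟨h, h2⟩ := lower (M := M) hU hV hne (by omega)
    (fun r => ρ (seg (row (5 * m) r))) (fun j => ρ (seg (col (nrows n M) j)))
  refine ⟨h, ?_⟩
  have e1 : ∀ s, HFg (nrows n M) (5 * m) (priv M U V) s = HF n m M U V s := fun _ => rfl
  have e2 : ∀ s, VFg (nrows n M) (5 * m) s = VF n m M s := fun _ => rfl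
  rw [e1, e2] at h1
  omega

theorem drawing_mpr {n m M k : ℕ} {U V : ℕ → ℕ} (hm : 0 < m) (hU : ∀ w < m, U w < n)
    (hV : ∀ w < m, V w < n) (hne : ∀ w < m, U w ≠ V w) (hM : 2 * n * m < M)
    (h : ℕ → ℕ) (hk : k ≤ ((range m).filter fun w => h (V w) < h (U w)).card) :
    MaxTotalSwitchesGrid ((boxes (nrows n M) (5 * m) (priv M U V)).map seg,
      CC (nrows n M) (5 * m) (priv M U V) + 2 * k - 2 * n * m) := by
  have hp : 0 < nrows n M := by
    unfold nrows
    omega
  have hq : 0 < 5 * m := by omega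
  refine ⟨axis_boxes, coord_boxes hp hq, isDrawing_boxes hp hq, ?_⟩
  obtain ⟨H, hH⟩ : ∃ H, ∀ i < n, h i ≤ H :=
    ⟨∑ i ∈ range n, h i, fun i hi => single_le_sum (f := h) (fun _ _ => Nat.zero_le _)
      (mem_range.2 hi)⟩
  have hab : ∀ r < nrows n M, ∀ j < 5 * m, ha M H h r ≠ hb H U h j := by
    intro r hr j hj
    unfold ha hb
    split_ifs with c1 c2 c3
    · omega
    · have := hH _ (node_lt hr c1)
      omega
    · have := hH _ (hU (j / 5) (by omega))
      omega
    · omega
    · omega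
    · omega
  obtain ⟨ρ, h1, h2⟩ := attain hp hq (priv M U V) (ha M H h) (hb H U h) hab
  refine ⟨ρ, h1, ?_⟩
  have h3 := achieve (M := M) hH hU hV hne (by omega)
  have e1 : ∀ s, HFg (nrows n M) (5 * m) (priv M U V) s = HF n m M U V s := fun _ => rfl
  have e2 : ∀ s, VFg (nrows n M) (5 * m) s = VF n m M s := fun _ => rfl
  rw [e1, e2] at h2
  simp only
  omega

end Pool.Agent.R553.SW
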