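import Pool.Agent.R553.SW.Main
import Pool.Agent.R542.Base
import Pool.Agent.H671R2.PolyAuto

/-!
# From independent sets to orders
-/

namespace Pool.Agent.R553.SW

open Pool.Agent.H692R2 Pool.Agent.NPC Pool.Agent.NPC.R542

/-- arcs from `v` to its copy -/
def arcs1 (N : ℕ) : List (ℕ × ℕ) := (List.range N).map fun v => (v, N + v)

/-- arcs from the copy of a vertex to its neighbours -/
noncomputable def arcs2 (G : FinGraph) : List (ℕ × ℕ) :=
  (List.range G.n).flatMap fun a => ((List.range G.n).filter fun b => adjB G a b).map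
    fun b => (G.n + a, b)

/-- all arcs -/
noncomputable def arcs (G : FinGraph) : List (ℕ × ℕ) := arcs1 G.n ++ arcs2 G

theorem mem_arcs2 {G : FinGraph} {x : ℕ × ℕ} : x ∈ arcs2 G ↔
    ∃ a < G.n, ∃ b < G.n, adjB G a b = true ∧ x = (G.n + a, b) := by
  unfold arcs2
  simp only [List.mem_flatMap, List.mem_range, List.mem_map, List.mem_filter]
  constructor
  · rintro ⟨a, ha, b, ⟨hb, h⟩, rfl⟩
    exact ⟨a, ha, b, hb, h, rfl⟩
  · rintro ⟨a, ha, b, hb, h, rfl⟩
    exact ⟨a, ha, b, ⟨hb, h⟩, rfl⟩

theorem mem_arcs1 {N : ℕ} {x : ℕ × ℕ} : x ∈ arcs1 N ↔ ∃ v < N, x = (v, N + v) := by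
  unfold arcs1
  simp only [List.mem_map, List.mem_range]
  constructor
  · rintro ⟨a, ha, rfl⟩
    exact ⟨a, ha, rfl⟩
  · rintro ⟨a, ha, rfl⟩
    exact ⟨a, ha, rfl⟩

theorem nodup_arcs2 (G : FinGraph) : (arcs2 G).Nodup := by
  unfold arcs2
  rw [List.nodup_flatMap]
  refine ⟨fun a _ => (List.nodup_range.filter _).map fun x y h => ?_, ?_⟩
  · rw [Prod.mk.injEq] at h
    exact h.2
  · refine List.nodup_range.pairwise_of_forall_ne ?_
    intro a _ b _ hab
    rw [Function.onFun, List.disjoint_left]
    intro x hx hx'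
    simp only [List.mem_map, List.mem_filter, List.mem_range] at hx hx'
    obtain ⟨i, _, rfl⟩ := hx
    obtain ⟨j, _, h⟩ := hx'
    rw [Prod.mk.injEq] at h
    omega

theorem card_getD {β : Type} (l : List β) (d : β) (P : β → Prop) [DecidablePred P] :
    ((Finset.range l.length).filter fun w => P (l.getD w d)).card = l.countP fun x => decide (P x) := by
  rw [Finset.card_filter]
  induction l with
  | nil => simp
  | cons a l ih =>
    rw [List.length_cons, Finset.sum_range_succ', List.countP_cons]
    simp only [List.getD_cons_succ, List.getD_cons_zero, decide_eq_true_eq]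
    rw [ih]

/-- Orders from independent sets. -/
theorem order_of_indep {G : FinGraph} (S : Finset (Fin G.n)) (hS : G.graph.IsIndepSet S) :
    ∃ h : ℕ → ℕ, (arcs G).countP (fun x => decide (h x.2 < h x.1)) = (arcs2 G).length + S.card := by
  classical
  let mS : ℕ → Prop := fun v => ∃ hv : v < G.n, (⟨v, hv⟩ : Fin G.n) ∈ S
  let h : ℕ → ℕ := fun i => if i < G.n then (if mS i then 2 else 0)
    else (if mS (i - G.n) then 1 else 3)
  refine ⟨h, ?_⟩
  unfold arcs
  rw [List.countP_append, Nat.add_comm]
  congr 1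
  · rw [List.countP_eq_length]
    intro x hx
    obtain ⟨a, ha, b, hb, hab, rfl⟩ := mem_arcs2.1 hx
    simp only [h, decide_eq_true_eq]
    rw [if_pos hb, if_neg (show ¬ G.n + a < G.n by omega), show G.n + a - G.n = a by omega]
    by_cases h1 : mS a
    · by_cases h2 : mS b
      · exfalso
        obtain ⟨_, h1⟩ := h1
        obtain ⟨_, h2⟩ := h2
        have hadj := (adjB_iff G ⟨a, ha⟩ ⟨b, hb⟩).1 hab
        exact hS h1 h2 hadj.ne hadj
      · rw [if_pos h1, if_neg h2]
        norm_num
    · rw [if_neg h1]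
      split_ifs <;> norm_num
  · unfold arcs1
    rw [List.countP_map]
    have e1 : (List.range G.n).countP ((fun x => decide (h x.2 < h x.1)) ∘ fun v => (v, G.n + v)) =
        (List.range G.n).countP fun v => decide (mS v) := by
      apply List.countP_congr
      intro v hv
      rw [List.mem_range] at hv
      simp only [h, Function.comp, decide_eq_true_eq]
      rw [if_pos hv, if_neg (show ¬ G.n + v < G.n by omega), show G.n + v - G.n = v by omega]
      by_cases h1 : mS v <;> simp [h1]
    rw [e1, List.countP_eq_length_filter]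
    have e2 : S.card = (S.image fun v : Fin G.n => (v : ℕ)).card := by
      rw [Finset.card_image_of_injective _ Fin.val_injective]
    rw [e2, ← List.toFinset_card_of_nodup (List.nodup_range.filter _)]
    congr 1
    ext v
    simp only [List.mem_toFinset, List.mem_filter, List.mem_range, decide_eq_true_eq,
      Finset.mem_image]
    constructor
    · rintro ⟨_, hv, h⟩
      exact ⟨_, h, rfl⟩
    · rintro ⟨w, hw, rfl⟩
      exact ⟨w.2, w.2, hw⟩

/-- Independent sets from orders. -/
theorem indep_of_order {G : FinGraph} {k : ℕ} (h : ℕ → ℤ)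
    (hk : (arcs2 G).length + k ≤ (arcs G).countP (fun x => decide (h x.2 < h x.1))) :
    ∃ S : Finset (Fin G.n), G.graph.IsIndepSet S ∧ S.card = k := by
  classical
  unfold arcs at hk
  rw [List.countP_append] at hk
  let S0 : Finset ℕ := (Finset.range G.n).filter fun v => h (G.n + v) < h v
  have hS0 : (arcs1 G.n).countP (fun x => decide (h x.2 < h x.1)) = S0.card := by
    unfold arcs1
    rw [List.countP_map, List.countP_eq_length_filter,
      ← List.toFinset_card_of_nodup (List.nodup_range.filter _)]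
    congr 1
    ext v
    simp [S0]
  let Bad : Finset (ℕ × ℕ) := ((arcs2 G).filter fun x => decide (¬ h x.2 < h x.1)).toFinset
  have hBad : Bad.card + (arcs2 G).countP (fun x => decide (h x.2 < h x.1)) =
      (arcs2 G).length := by
    rw [List.toFinset_card_of_nodup ((nodup_arcs2 G).filter _), ← List.countP_eq_length_filter]
    have := List.length_eq_countP_add_countP (fun x : ℕ × ℕ => decide (h x.2 < h x.1)) (l := arcs2 G)
    rw [this, Nat.add_comm]
    congr 1
    apply List.countP_congr
    intro x _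
    simp
  let T : Finset ℕ := S0 \ (Bad.image fun x => x.1 - G.n)
  have hT : k ≤ T.card := by
    have h1 := Finset.le_card_sdiff (Bad.image fun x : ℕ × ℕ => x.1 - G.n) S0
    have h2 : (Bad.image fun x : ℕ × ℕ => x.1 - G.n).card ≤ Bad.card := Finset.card_image_le
    have h3 : S0.card - (Bad.image fun x : ℕ × ℕ => x.1 - G.n).card ≤ T.card := h1
    omega
  have hbad : ∀ a b, a < G.n → b < G.n → adjB G a b = true → a ∈ T → h b < h (G.n + a) := by
    intro a b ha hb hab haT
    by_contra hcon
    have : (G.n + a, b) ∈ Bad := by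
      simp only [Bad, List.mem_toFinset, List.mem_filter, decide_eq_true_eq]
      exact ⟨mem_arcs2.2 ⟨a, ha, b, hb, hab, rfl⟩, hcon⟩
    have h2 := (Finset.mem_sdiff.1 haT).2
    apply h2
    refine Finset.mem_image.2 ⟨_, this, ?_⟩
    simp
  let T' : Finset (Fin G.n) := Finset.univ.filter fun v => (v : ℕ) ∈ T
  have hT' : T'.card = T.card := by
    rw [← Finset.card_image_of_injective T' Fin.val_injective]
    congr 1
    ext v
    simp only [T', Finset.mem_image, Finset.mem_filter, Finset.mem_univ, true_and]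
    constructor
    · rintro ⟨w, hw, rfl⟩
      exact hw
    · intro hv
      have h1 := (Finset.mem_filter.1 (Finset.mem_sdiff.1 hv).1).1
      exact ⟨⟨v, Finset.mem_range.1 h1⟩, hv, rfl⟩
  have hind : G.graph.IsIndepSet T' := by
    intro a ha b hb hne hadj
    simp only [T', Finset.coe_filter, Finset.mem_univ, true_and, Set.mem_ofPred_eq] at ha hb
    have h1 := hbad a b a.2 b.2 ((adjB_iff G a b).2 hadj) ha
    have h2 := hbad b a b.2 a.2 ((adjB_iff G b a).2 hadj.symm) hb
    have h3 := (Finset.mem_filter.1 (Finset.mem_sdiff.1 ha).1).2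
    have h4 := (Finset.mem_filter.1 (Finset.mem_sdiff.1 hb).1).2
    omega
  obtain ⟨S, hS, hSc⟩ := Finset.exists_subset_card_eq (hT'.symm ▸ hT : k ≤ T'.card)
  exact ⟨S, hind.mono (by exact_mod_cast hS), hSc⟩

/-! ### The instance -/

/-- number of rows in a pack -/
def packSize (n m : ℕ) : ℕ := 2 * n * m + 1

/-- tail of arc number `w` -/
def tl (A : List (ℕ × ℕ)) (w : ℕ) : ℕ := (A.getD w (0, 0)).1
/-- head of arc number `w` -/
def hd (A : List (ℕ × ℕ)) (w : ℕ) : ℕ := (A.getD w (0, 0)).2

/-- the output for `n` nodes, arcs `A` and threshold `k` -/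
def out (n : ℕ) (A : List (ℕ × ℕ)) (k : ℕ) : List Seg × ℕ :=
  ((boxes (nrows n (packSize n A.length)) (5 * A.length)
      (priv (packSize n A.length) (tl A) (hd A))).map seg,
    CC (nrows n (packSize n A.length)) (5 * A.length) (priv (packSize n A.length) (tl A) (hd A)) +
      2 * k - 2 * n * A.length)

/-- the reduction -/
noncomputable def red (I : FinGraph × ℕ) : List Seg × ℕ :=
  out (2 * I.1.n) (arcs I.1) ((arcs2 I.1).length + I.2)

theorem arcs_ok {G : FinGraph} {w : ℕ} (hw : w < (arcs G).length) :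
    tl (arcs G) w < 2 * G.n ∧ hd (arcs G) w < 2 * G.n ∧ tl (arcs G) w ≠ hd (arcs G) w := by
  unfold tl hd
  rw [List.getD_eq_getElem _ _ hw]
  have hmem : (arcs G)[w] ∈ arcs1 G.n ++ arcs2 G := List.getElem_mem hw
  rw [List.mem_append, mem_arcs1, mem_arcs2] at hmem
  rcases hmem with ⟨v, hv, h⟩ | ⟨a, ha, b, hb, _, h⟩ <;> rw [h] <;> simp only <;> omega

theorem red_correct {I : FinGraph × ℕ} (hI : 0 < I.1.n) :
    HasIndep I ↔ MaxTotalSwitchesGrid (red I) := by
  have hm : 0 < (arcs I.1).length := by
    unfold arcs arcs1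
    rw [List.length_append, List.length_map, List.length_range]
    omega
  have hU : ∀ w < (arcs I.1).length, tl (arcs I.1) w < 2 * I.1.n := fun w hw => (arcs_ok hw).1
  have hV : ∀ w < (arcs I.1).length, hd (arcs I.1) w < 2 * I.1.n := fun w hw => (arcs_ok hw).2.1
  have hne : ∀ w < (arcs I.1).length, tl (arcs I.1) w ≠ hd (arcs I.1) w :=
    fun w hw => (arcs_ok hw).2.2
  constructor
  · rintro ⟨S, hS, hk⟩
    obtain ⟨h, hh⟩ := order_of_indep S hS
    refine drawing_mpr hm hU hV hne (Nat.lt_succ_self _) h ?_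
    rw [← hk, ← hh, ← card_getD (arcs I.1) (0, 0) (fun x : ℕ × ℕ => h x.2 < h x.1)]
    rfl
  · intro h
    obtain ⟨h, hh⟩ := drawing_mp hm hU hV hne (Nat.lt_succ_self _) h
    refine indep_of_order h (hh.trans (le_of_eq ?_))
    rw [← card_getD (arcs I.1) (0, 0) (fun x : ℕ × ℕ => h x.2 < h x.1)]
    rfl

end Pool.Agent.R553.SW
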